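import Mathlib

/-!
# Project Spl3 (S-lemma, MP_92924b), module SpanL: expansion modulo powers of the ideal of a node

`B` is a commutative algebra over the commutative ring `A`, `I = (a, b)` an ideal with `B = A + I`.  For
weights `w α β` which are units of `A` modulo `I`, every `f` is, modulo `I ^ m`, a combination of the
`a ^ α * b ^ β * w α β`, `α + β < m`, with coefficients in `A`.
-/

namespace Spl3

open Finset

variable {A B : Type*} [CommRing A] [CommRing B] [Algebra A B]

/-- The elements of `(a, b) ^ s` are the sums of the `a ^ α * b ^ β * r`, `α + β = s`. -/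
theorem mem_pow_pair {a b : B} {s : ℕ} {f : B} (hf : f ∈ (Ideal.span {a, b}) ^ s) :
    ∃ r : ℕ → B, f = ∑ i ∈ range (s + 1), a ^ i * b ^ (s - i) * r i := by
  induction s generalizing f with
  | zero => exact ⟨fun _ => f, by simp⟩
  | succ s ih =>
    rw [pow_succ] at hf
    induction hf using Submodule.mul_induction_on' with
    | mem_mul_mem m hm n hn =>
      obtain ⟨r, rfl⟩ := ih hm
      obtain ⟨x, y, rfl⟩ := Ideal.mem_span_pair.1 hn
      refine ⟨fun i => (if i = 0 then 0 else r (i - 1) * x) + (if i = s + 1 then 0 else r i * y), ?_⟩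
      have h1 : ∑ i ∈ range (s + 1 + 1), a ^ i * b ^ (s + 1 - i) * (if i = 0 then 0 else r (i - 1) * x) =
          ∑ i ∈ range (s + 1), a ^ i * b ^ (s - i) * r i * (x * a) := by
        rw [Finset.sum_range_succ']
        simp only [Nat.add_sub_cancel, if_true, mul_zero, add_zero, Nat.succ_ne_zero, if_false]
        refine Finset.sum_congr rfl fun i hi => ?_
        rw [show s + 1 - (i + 1) = s - i by omega]
        ring
      have h2 : ∑ i ∈ range (s + 1 + 1), a ^ i * b ^ (s + 1 - i) * (if i = s + 1 then 0 else r i * y) =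
          ∑ i ∈ range (s + 1), a ^ i * b ^ (s - i) * r i * (y * b) := by
        rw [Finset.sum_range_succ]
        simp only [if_true, mul_zero, add_zero]
        refine Finset.sum_congr rfl fun i hi => ?_
        have hi' := Finset.mem_range.1 hi
        rw [if_neg (by omega), show s + 1 - i = (s - i) + 1 by omega]
        ring
      simp only [mul_add (_ * _)]
      rw [Finset.sum_add_distrib, h1, h2, ← Finset.sum_add_distrib, Finset.sum_mul]
      refine Finset.sum_congr rfl fun i _ => ?_
      ring
    | add x hx y hy hx' hy' =>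
      obtain ⟨r, hr⟩ := hx'
      obtain ⟨r', hr'⟩ := hy'
      refine ⟨fun i => r i + r' i, ?_⟩
      rw [hr, hr', ← Finset.sum_add_distrib]
      refine Finset.sum_congr rfl fun i _ => ?_
      ring

theorem pow_mul_mem {a b : B} {α β m : ℕ} (h : m ≤ α + β) (x : B) :
    a ^ α * b ^ β * x ∈ (Ideal.span {a, b}) ^ m := by
  have ha : a ∈ Ideal.span {a, b} := Ideal.subset_span (by simp)
  have hb : b ∈ Ideal.span {a, b} := Ideal.subset_span (by simp)
  have h1 : a ^ α * b ^ β ∈ (Ideal.span {a, b}) ^ (α + β) := by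
    rw [pow_add]
    exact Ideal.mul_mem_mul (Ideal.pow_mem_pow ha α) (Ideal.pow_mem_pow hb β)
  exact Ideal.mul_mem_right _ _ (Ideal.pow_le_pow_right h h1)

/-- The expansion. -/
theorem span_node {a b : B} {m : ℕ} (w : ℕ → ℕ → B)
    (hev : ∀ f : B, ∃ c : A, f - algebraMap A B c ∈ Ideal.span {a, b})
    (hw : ∀ α β, α + β < m → ∃ u : Aˣ, w α β - algebraMap A B u ∈ Ideal.span {a, b}) (f : B) :
    ∃ c : ℕ → ℕ → A, f - ∑ s ∈ range m, ∑ i ∈ range (s + 1),
      algebraMap A B (c i (s - i)) * (a ^ i * b ^ (s - i) * w i (s - i)) ∈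
        (Ideal.span {a, b}) ^ m := by
  suffices H : ∀ n ≤ m, ∃ c : ℕ → ℕ → A, f - ∑ s ∈ range n, ∑ i ∈ range (s + 1),
      algebraMap A B (c i (s - i)) * (a ^ i * b ^ (s - i) * w i (s - i)) ∈
        (Ideal.span {a, b}) ^ n from H m le_rfl
  intro n
  induction n with
  | zero => intro _; exact ⟨fun _ _ => 0, by simp⟩
  | succ n ih =>
    intro hn
    obtain ⟨c, hc⟩ := ih (by omega)
    obtain ⟨r, hr⟩ := mem_pow_pair hc
    choose c' hc' using fun i => hev (r i)
    have hu : ∀ i, ∃ u : Aˣ, i ≤ n → w i (n - i) - algebraMap A B u ∈ Ideal.span {a, b} := by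
      intro i
      by_cases hi : i ≤ n
      · obtain ⟨u, hu⟩ := hw i (n - i) (by omega)
        exact ⟨u, fun _ => hu⟩
      · exact ⟨1, fun h => absurd h hi⟩
    choose u hu using hu
    refine ⟨fun i j => if i + j = n then c' i * ((u i)⁻¹ : Aˣ) else c i j, ?_⟩
    rw [Finset.sum_range_succ]
    have h1 : ∑ s ∈ range n, ∑ i ∈ range (s + 1),
        algebraMap A B (if i + (s - i) = n then c' i * ((u i)⁻¹ : Aˣ) else c i (s - i)) *
          (a ^ i * b ^ (s - i) * w i (s - i)) =
        ∑ s ∈ range n, ∑ i ∈ range (s + 1),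
          algebraMap A B (c i (s - i)) * (a ^ i * b ^ (s - i) * w i (s - i)) := by
      refine Finset.sum_congr rfl fun s hs => Finset.sum_congr rfl fun i hi => ?_
      have hs' := Finset.mem_range.1 hs
      have hi' := Finset.mem_range.1 hi
      rw [if_neg (by omega)]
    rw [h1, ← sub_sub, hr, ← Finset.sum_sub_distrib]
    refine Ideal.sum_mem _ fun i hi => ?_
    have hi' := Finset.mem_range.1 hi
    beta_reduce
    rw [if_pos (by omega)]
    have h2 : r i - algebraMap A B (c' i * ((u i)⁻¹ : Aˣ)) * w i (n - i) ∈ Ideal.span {a, b} := by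
      have h3 : r i - algebraMap A B (c' i * ((u i)⁻¹ : Aˣ)) * w i (n - i) =
          (r i - algebraMap A B (c' i)) - algebraMap A B (c' i * ((u i)⁻¹ : Aˣ)) *
            (w i (n - i) - algebraMap A B (u i)) := by
        have h4 : algebraMap A B (c' i * ((u i)⁻¹ : Aˣ)) * algebraMap A B (u i) =
            algebraMap A B (c' i) := by
          rw [← map_mul, mul_assoc, Units.inv_mul, mul_one]
        rw [mul_sub, h4]
        ring
      rw [h3]
      exact Ideal.sub_mem _ (hc' i) (Ideal.mul_mem_left _ _ (hu i (by omega)))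
    have h5 : a ^ i * b ^ (n - i) * r i - algebraMap A B (c' i * ((u i)⁻¹ : Aˣ)) *
        (a ^ i * b ^ (n - i) * w i (n - i)) =
        a ^ i * b ^ (n - i) * (r i - algebraMap A B (c' i * ((u i)⁻¹ : Aˣ)) * w i (n - i)) := by
      ring
    rw [h5, pow_succ]
    refine Ideal.mul_mem_mul ?_ h2
    have := pow_mul_mem (a := a) (b := b) (α := i) (β := n - i) (m := n) (by omega) 1
    rwa [mul_one] at this

end Spl3
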