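import Mathlib

/-!
# Project Spl3 (S-lemma, MP_92924b), module Spec: surjectivity at `ε = 0` implies surjectivity generically

`Ψ` is a linear map over `K[ε]`; if it is surjective modulo the ideals `𝔞 e` and `ε` (and `B ⧸ 𝔞 e` is finite),
then a multiple `r T`, `r (0) = 1`, of every `T` is in the image modulo `𝔞 e` (Nakayama's lemma).
-/

namespace Spl3

open Polynomial

theorem spec {K : Type*} [Field K] {E : Type*} [Finite E] {B : Type*} [CommRing B] [Algebra K[X] B]
    {S : Type*} [AddCommGroup S] [Module K[X] S] (Ψ : S →ₗ[K[X]] (E → B)) (I : E → Ideal B)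
    (hfin : ∀ e, Module.Finite K[X] (B ⧸ I e))
    (h : ∀ T : E → B, ∃ x, ∀ e, Ψ x e - T e ∈ I e ⊔ Ideal.span {algebraMap K[X] B X}) :
    ∃ r : K[X], r.eval 0 = 1 ∧ ∀ T : E → B, ∃ x, ∀ e, Ψ x e - algebraMap K[X] B r * T e ∈ I e := by
  classical
  let π : (E → B) →ₗ[K[X]] (∀ e, B ⧸ I e) :=
    LinearMap.pi fun e => (Ideal.Quotient.mkₐ K[X] (I e)).toLinearMap ∘ₗ LinearMap.proj e
  have hπ : ∀ (T : E → B) (e : E), π T e = Ideal.Quotient.mk (I e) (T e) := fun T e => rfl
  have hsurj : ∀ M : (∀ e, B ⧸ I e), ∃ T : E → B, π T = M := by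
    intro M
    choose T hT using fun e => Ideal.Quotient.mk_surjective (M e)
    exact ⟨T, funext fun e => hT e⟩
  let N : Submodule K[X] (∀ e, B ⧸ I e) := LinearMap.range (π ∘ₗ Ψ)
  have hle : (⊤ : Submodule K[X] ((∀ e, B ⧸ I e) ⧸ N)) ≤ (Ideal.span {(X : K[X])}) • ⊤ := by
    intro y _
    obtain ⟨M, rfl⟩ := Submodule.Quotient.mk_surjective N y
    obtain ⟨T, rfl⟩ := hsurj M
    obtain ⟨x, hx⟩ := h T
    have hz : ∀ e, ∃ a z : B, a ∈ I e ∧ Ψ x e - T e = a + algebraMap K[X] B X * z := by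
      intro e
      obtain ⟨a, ha, b, hb, hab⟩ := Submodule.mem_sup.1 (hx e)
      obtain ⟨z, rfl⟩ := Ideal.mem_span_singleton'.1 hb
      exact ⟨a, z, ha, by rw [← hab, mul_comm]⟩
    choose a z ha hz using hz
    have h1 : π T = π (Ψ x) - (X : K[X]) • π z := by
      funext e
      rw [Pi.sub_apply, Pi.smul_apply, hπ, hπ, hπ, Algebra.smul_def]
      have h2 : (algebraMap K[X] (B ⧸ I e)) X * Ideal.Quotient.mk (I e) (z e) =
          Ideal.Quotient.mk (I e) (algebraMap K[X] B X * z e) := by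
        rw [map_mul]; rfl
      rw [h2, ← map_sub, eq_comm, Ideal.Quotient.eq]
      have h3 : Ψ x e - algebraMap K[X] B X * z e - T e = a e := by
        linear_combination hz e
      rw [h3]
      exact ha e
    have h2 : Submodule.Quotient.mk (p := N) (π T) =
        (X : K[X]) • (-Submodule.Quotient.mk (p := N) (π z)) := by
      rw [h1, Submodule.Quotient.mk_sub, smul_neg, Submodule.Quotient.mk_smul]
      have h3 : Submodule.Quotient.mk (p := N) (π (Ψ x)) = 0 :=
        (Submodule.Quotient.mk_eq_zero N).2 ⟨x, rfl⟩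
      rw [h3, zero_sub]
    rw [h2]
    exact Submodule.smul_mem_smul (Ideal.mem_span_singleton_self _) trivial
  have hfg : (⊤ : Submodule K[X] ((∀ e, B ⧸ I e) ⧸ N)).FG := by
    have := hfin
    have : Module.Finite K[X] (∀ e, B ⧸ I e) := by
      have := Fintype.ofFinite E
      exact Module.Finite.pi
    exact Module.Finite.fg_top
  obtain ⟨r, hr1, hr2⟩ := Submodule.exists_sub_one_mem_and_smul_eq_zero_of_fg_of_le_smul _ _ hfg hle
  refine ⟨r, ?_, ?_⟩
  · obtain ⟨s, hs⟩ := Ideal.mem_span_singleton'.1 hr1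
    have : r = s * X + 1 := by rw [hs]; ring
    rw [this]; simp
  · intro T
    have h1 : r • Submodule.Quotient.mk (p := N) (π T) = 0 := hr2 _ trivial
    rw [← Submodule.Quotient.mk_smul, Submodule.Quotient.mk_eq_zero] at h1
    obtain ⟨x, hx⟩ := h1
    refine ⟨x, fun e => ?_⟩
    have h2 := congrFun hx e
    rw [Pi.smul_apply, hπ, LinearMap.comp_apply, hπ, Algebra.smul_def] at h2
    have h3 : (algebraMap K[X] (B ⧸ I e)) r * Ideal.Quotient.mk (I e) (T e) =
        Ideal.Quotient.mk (I e) (algebraMap K[X] B r * T e) := by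
      rw [map_mul]; rfl
    rw [h3, Ideal.Quotient.eq] at h2
    exact h2

/-- The same for a submodule. -/
theorem spec_sub {K : Type*} [Field K] {E : Type*} [Finite E] {B : Type*} [CommRing B]
    [Algebra K[X] B] (N : Submodule K[X] (E → B)) (I : E → Ideal B)
    (hfin : ∀ e, Module.Finite K[X] (B ⧸ I e))
    (h : ∀ T : E → B, ∃ T' ∈ N, ∀ e, T' e - T e ∈ I e ⊔ Ideal.span {algebraMap K[X] B X}) :
    ∃ r : K[X], r.eval 0 = 1 ∧ ∀ T : E → B, ∃ T' ∈ N, ∀ e, T' e - algebraMap K[X] B r * T e ∈ I e := by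
  obtain ⟨r, h0, hr⟩ := spec N.subtype I hfin fun T => by
    obtain ⟨T', hT', h'⟩ := h T
    exact ⟨⟨T', hT'⟩, h'⟩
  refine ⟨r, h0, fun T => ?_⟩
  obtain ⟨x, hx⟩ := hr T
  exact ⟨x.1, x.2, hx⟩

end Spl3
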