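import Pool.Agent.Spl3.Defs
import Pool.Agent.Spl3.SpanL
import Pool.Agent.Spl3.Spec

/-!
# Project Spl3 (S-lemma, MP_92924b), module Basic: evaluation at `ε = z`, scaling, nodes
-/

namespace Spl3

open MvPolynomial

variable {K : Type*} [Field K]

theorem ev_Cm (z : K) (P : MvPolynomial (Fin 2) K) : ev z (Cm P) = P := by
  unfold ev Cm
  rw [MvPolynomial.map_map]
  have : (Polynomial.evalRingHom z).comp Polynomial.C = RingHom.id K := by
    ext x; simp
  rw [this, MvPolynomial.map_id]

theorem ev_surj (z : K) : Function.Surjective (ev z) := fun P => ⟨Cm P, ev_Cm z P⟩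

theorem ev_C (z : K) (r : Polynomial K) : ev z (C r) = C (r.eval z) := by
  simp [ev]

theorem ev_X (z : K) (n : Fin 2) : ev z (X n) = X n := by
  simp [ev]

theorem Cm_C (r : K) : Cm (C r : MvPolynomial (Fin 2) K) = C (Polynomial.C r) := by
  simp [Cm]

theorem Cm_X (n : Fin 2) : Cm (X n : MvPolynomial (Fin 2) K) = X n := by
  simp [Cm]

/-- The kernel of the evaluation at `0`. -/
theorem mem_span_of_ev {P : MvPolynomial (Fin 2) (Polynomial K)} (h : ev 0 P = 0) :
    P ∈ Ideal.span {algebraMap (Polynomial K) (MvPolynomial (Fin 2) (Polynomial K)) Polynomial.X} := by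
  rw [Ideal.mem_span_singleton, MvPolynomial.algebraMap_eq, MvPolynomial.C_dvd_iff_dvd_coeff]
  intro d
  rw [Polynomial.X_dvd_iff, Polynomial.coeff_zero_eq_eval_zero]
  have := congrArg (MvPolynomial.coeff d) h
  simpa [ev, MvPolynomial.coeff_map] using this

/-- Lifting of memberships modulo `ε`. -/
theorem lift_mem {J : Ideal (MvPolynomial (Fin 2) (Polynomial K))}
    {P : MvPolynomial (Fin 2) (Polynomial K)} (h : ev 0 P ∈ J.map (ev 0)) :
    P ∈ J ⊔ Ideal.span {algebraMap (Polynomial K) (MvPolynomial (Fin 2) (Polynomial K))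
      Polynomial.X} := by
  obtain ⟨P', hP', h'⟩ := (Ideal.mem_map_iff_of_surjective _ (ev_surj 0)).1 h
  have h1 : P - P' ∈ Ideal.span {algebraMap (Polynomial K) (MvPolynomial (Fin 2) (Polynomial K))
      Polynomial.X} := mem_span_of_ev (by rw [map_sub, h', sub_self])
  have h2 := Ideal.add_mem (J ⊔ Ideal.span {algebraMap (Polynomial K)
    (MvPolynomial (Fin 2) (Polynomial K)) Polynomial.X}) (Ideal.mem_sup_right h1)
      (Ideal.mem_sup_left hP')
  rwa [sub_add_cancel] at h2

theorem ev_ln (z : K) (lam kap : Polynomial K) : ev z (ln lam kap) = ln (lam.eval z) (kap.eval z) := by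
  unfold ln
  rw [map_add, map_add, map_mul, ev_X, ev_X, ev_C, ev_C]

theorem ev_scl (z : K) (s : ℕ) (P : MvPolynomial (Fin 2) (Polynomial K)) :
    ev z (scl s P) = scK (z ^ s) (ev z P) := by
  induction P using MvPolynomial.induction_on with
  | C r =>
    have h1 : scl s (C r : MvPolynomial (Fin 2) (Polynomial K)) = C r := by
      rw [← MvPolynomial.algebraMap_eq, AlgHom.commutes]
    have h2 : scK (z ^ s) (C (r.eval z) : MvPolynomial (Fin 2) K) = C (r.eval z) := by
      rw [← MvPolynomial.algebraMap_eq, AlgHom.commutes]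
    rw [h1, ev_C, h2]
  | add P Q hP hQ => rw [map_add, map_add, map_add, map_add, hP, hQ]
  | mul_X P n hP =>
    rw [map_mul, map_mul, hP, map_mul, map_mul, ev_X]
    congr 1
    unfold scl scK
    rw [aeval_X, aeval_X, map_mul, ev_C, ev_X]
    simp

theorem totalDegree_ev_le (z : K) (P : MvPolynomial (Fin 2) (Polynomial K)) :
    (ev z P).totalDegree ≤ P.totalDegree := by
  unfold ev MvPolynomial.totalDegree
  exact Finset.sup_mono (MvPolynomial.support_map_subset _ _)

theorem totalDegree_Cm_le (P : MvPolynomial (Fin 2) K) : (Cm P).totalDegree ≤ P.totalDegree := by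
  unfold Cm MvPolynomial.totalDegree
  exact Finset.sup_mono (MvPolynomial.support_map_subset _ _)

theorem totalDegree_C_mul_le {R : Type*} [CommRing R] (r : R) (P : MvPolynomial (Fin 2) R) :
    (C r * P).totalDegree ≤ P.totalDegree := by
  refine (totalDegree_mul _ _).trans ?_
  rw [totalDegree_C, zero_add]

/-- Every polynomial is constant modulo the ideal of a point. -/
theorem sub_C_mem {R : Type*} [CommRing R] {J : Ideal (MvPolynomial (Fin 2) R)} {p : Fin 2 → R}
    (h : ∀ n, X n - C (p n) ∈ J) (P : MvPolynomial (Fin 2) R) : P - C (eval p P) ∈ J := by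
  induction P using MvPolynomial.induction_on with
  | C r => simp
  | add P Q hP hQ =>
    rw [map_add, C_add]
    have := J.add_mem hP hQ
    rwa [show P - C (eval p P) + (Q - C (eval p Q)) = P + Q - (C (eval p P) + C (eval p Q)) by
      ring] at this
  | mul_X P n hP =>
    rw [map_mul, eval_X, C_mul]
    have := J.add_mem (J.mul_mem_right (X n) hP) (J.mul_mem_left (C (eval p P)) (h n))
    rwa [show (P - C (eval p P)) * X n + C (eval p P) * (X n - C (p n)) =
      P * X n - C (eval p P) * C (p n) by ring] at this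

/-- Every polynomial is constant modulo the ideal of the node of two lines. -/
theorem node_const {R : Type*} [CommRing R] {a b a' b' : R} {u : Rˣ} (hu : (u : R) = a - b)
    (P : MvPolynomial (Fin 2) R) : ∃ z : R, P - C z ∈ Ideal.span {ln a a', ln b b'} := by
  have hinv : (a - b) * (u⁻¹ : Rˣ) = 1 := by rw [← hu]; exact Units.mul_inv u
  have ha : ln a a' ∈ Ideal.span {ln a a', ln b b'} := Ideal.subset_span (by simp)
  have hb : ln b b' ∈ Ideal.span {ln a a', ln b b'} := Ideal.subset_span (by simp)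
  obtain ⟨y, hy⟩ : ∃ y : R, y = -((a' - b') * (u⁻¹ : Rˣ)) := ⟨_, rfl⟩
  obtain ⟨x, hx⟩ : ∃ x : R, x = -(a * y + a') := ⟨_, rfl⟩
  have h1 : X 1 - C y ∈ Ideal.span {ln a a', ln b b'} := by
    have h2 := Ideal.mul_mem_left _ (C ((u⁻¹ : Rˣ) : R)) (Ideal.sub_mem _ ha hb)
    have h3 : C ((u⁻¹ : Rˣ) : R) * (ln a a' - ln b b') = X 1 - C y := by
      unfold ln
      have h4 : (C ((u⁻¹ : Rˣ) : R) : MvPolynomial (Fin 2) R) * (C a - C b) = 1 := by
        rw [← C_sub, ← C_mul, mul_comm, hinv, C_1]
      rw [hy, C_neg, C_mul, C_sub]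
      linear_combination (X 1) * h4
    rwa [h3] at h2
  have h0 : X 0 - C x ∈ Ideal.span {ln a a', ln b b'} := by
    have h2 := Ideal.sub_mem _ ha (Ideal.mul_mem_left _ (C a) h1)
    have h3 : ln a a' - C a * (X 1 - C y) = X 0 - C x := by
      unfold ln
      rw [hx, C_neg, C_add, C_mul]
      ring
    rwa [h3] at h2
  refine ⟨eval ![x, y] P, sub_C_mem (p := ![x, y]) ?_ P⟩
  intro n
  fin_cases n
  · exact h0
  · exact h1

theorem finite_quot {R : Type*} [CommRing R] {x y : MvPolynomial (Fin 2) R} (m : ℕ)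
    (hev : ∀ P : MvPolynomial (Fin 2) R, ∃ z : R, P - C z ∈ Ideal.span {x, y}) :
    Module.Finite R (MvPolynomial (Fin 2) R ⧸ (Ideal.span {x, y}) ^ m) := by
  classical
  refine ⟨⟨((Finset.range m).biUnion fun s => (Finset.range (s + 1)).image fun i =>
    Ideal.Quotient.mk ((Ideal.span {x, y}) ^ m) (x ^ i * y ^ (s - i))), ?_⟩⟩
  rw [eq_top_iff]
  intro P _
  obtain ⟨P, rfl⟩ := Ideal.Quotient.mk_surjective P
  obtain ⟨c, hc⟩ := span_node (A := R) (a := x) (b := y) (m := m) (fun _ _ => 1)
    (fun f => by simpa [MvPolynomial.algebraMap_eq] using hev f)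
    (fun _ _ _ => ⟨1, by simp⟩) P
  have h1 : Ideal.Quotient.mk ((Ideal.span {x, y}) ^ m) P =
      ∑ s ∈ Finset.range m, ∑ i ∈ Finset.range (s + 1),
        c i (s - i) • Ideal.Quotient.mk ((Ideal.span {x, y}) ^ m) (x ^ i * y ^ (s - i)) := by
    rw [← Ideal.Quotient.eq] at hc
    rw [hc, map_sum]
    refine Finset.sum_congr rfl fun s _ => ?_
    rw [map_sum]
    refine Finset.sum_congr rfl fun i _ => ?_
    rw [mul_one, ← Algebra.smul_def]
    rfl
  rw [h1]
  refine Submodule.sum_mem _ fun s hs => Submodule.sum_mem _ fun i hi => ?_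
  refine Submodule.smul_mem _ _ (Submodule.subset_span ?_)
  rw [Finset.mem_coe, Finset.mem_biUnion]
  exact ⟨s, hs, Finset.mem_image.2 ⟨i, hi, rfl⟩⟩

/-- The dependency kills affine functions: rows of class `c`. -/
theorem cdet_near {R : Type*} [CommRing R] (μ η : ℕ → R) {i j k l : ℕ} (hi : η i = 0) (hj : η j = 0)
    (h : ℕ → MvPolynomial (Fin 2) R) (A B g : MvPolynomial (Fin 2) R)
    (h1 : h i = A + C (μ i) * B) (h2 : h j = A + C (μ j) * B)
    (h3 : h k = A + C (μ k) * B + C (η k) * g) :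
    cdet μ η i j k l h = C ((μ j - μ i) * η k) * (C (η l) * g - (h l - A - C (μ l) * B)) := by
  unfold cdet d3
  rw [h1, h2, h3, hi, hj]
  simp only [C_0, map_sub, map_mul]
  ring

theorem cdet_add {R : Type*} [CommRing R] (μ η : ℕ → R) (i j k l : ℕ)
    (h h' : ℕ → MvPolynomial (Fin 2) R) :
    cdet μ η i j k l (fun v => h v + h' v) = cdet μ η i j k l h + cdet μ η i j k l h' := by
  unfold cdet
  ring

theorem cdet_mul {R : Type*} [CommRing R] (μ η : ℕ → R) (i j k l : ℕ) (r : MvPolynomial (Fin 2) R)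
    (h : ℕ → MvPolynomial (Fin 2) R) :
    cdet μ η i j k l (fun v => r * h v) = r * cdet μ η i j k l h := by
  unfold cdet
  ring

theorem cdet_ev (z : K) (μ η : ℕ → Polynomial K) (i j k l : ℕ)
    (h : ℕ → MvPolynomial (Fin 2) (Polynomial K)) :
    ev z (cdet μ η i j k l h) =
      cdet (fun v => (μ v).eval z) (fun v => (η v).eval z) i j k l (fun v => ev z (h v)) := by
  unfold cdet d3
  simp only [map_sub, map_add, map_mul, ev_C]

end Spl3
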