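import Mathlib

/-!
# Project Spl3 (S-lemma, MP_92924b): definitions

`ln lam kap = X 0 + lam X 1 + kap` is the line of a vertex with position `(lam, kap)` (affine chart of the
dual plane).  `cdet μ η i j k l h` is the affine dependency of the four points `(μ v, η v)` applied to `h`.
`Onto m q lam μ kap i j k l a b c`: the rows `e` with `c < k e` are onto for the functions `h` which are
affine on the vertices `≤ c`, modulo the `m`-th power of the ideal of the node of `e`.
`NodeOK`: the local data at a node of the class `c`, see module `Step`.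
-/

namespace Spl3

open MvPolynomial

/-- The line of a vertex. -/
noncomputable def ln {R : Type*} [CommRing R] (lam kap : R) : MvPolynomial (Fin 2) R :=
  X 0 + C lam * X 1 + C kap

/-- The determinant of three points. -/
def d3 {R : Type*} [CommRing R] (μ η : ℕ → R) (a b c : ℕ) : R :=
  (μ b - μ a) * (η c - η a) - (μ c - μ a) * (η b - η a)

/-- The affine dependency of four points. -/
noncomputable def cdet {R : Type*} [CommRing R] (μ η : ℕ → R) (i j k l : ℕ)
    (h : ℕ → MvPolynomial (Fin 2) R) : MvPolynomial (Fin 2) R :=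
  C (d3 μ η j k l) * h i - C (d3 μ η i k l) * h j + C (d3 μ η i j l) * h k -
    C (d3 μ η i j k) * h l

/-- The ideal of the node of two vertices. -/
noncomputable def nodeI {R : Type*} [CommRing R] (lam kap : ℕ → R) (a b : ℕ) :
    Ideal (MvPolynomial (Fin 2) R) :=
  Ideal.span {ln (lam a) (kap a), ln (lam b) (kap b)}

/-- The rows of class `> c` are onto. -/
def Onto {K : Type*} [Field K] {E : Type*} (m q : ℕ) (lam μ kap : ℕ → K) (i j k l a b : E → ℕ)
    (c : ℕ) : Prop :=
  ∀ t : E → MvPolynomial (Fin 2) K, ∃ (A B : MvPolynomial (Fin 2) K)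
    (h : ℕ → MvPolynomial (Fin 2) K), A.totalDegree ≤ 2 * m ∧ B.totalDegree ≤ 2 * m ∧
    (∀ v, (h v).totalDegree ≤ 2 * m) ∧ ∀ e, c < k e →
      cdet μ (fun v => kap v ^ q) (i e) (j e) (k e) (l e)
        (fun v => if v ≤ c then A + C (μ v) * B else h v) - t e ∈ (nodeI lam kap (a e) (b e)) ^ m

/-- The value at `ε = z`. -/
noncomputable def ev {K : Type*} [Field K] (z : K) :
    MvPolynomial (Fin 2) (Polynomial K) →+* MvPolynomial (Fin 2) K :=
  MvPolynomial.map (Polynomial.evalRingHom z)

/-- Constant polynomials. -/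
noncomputable def Cm {K : Type*} [Field K] :
    MvPolynomial (Fin 2) K →+* MvPolynomial (Fin 2) (Polynomial K) :=
  MvPolynomial.map Polynomial.C

/-- Scaling of the variables by `ε ^ s`. -/
noncomputable def scl {K : Type*} [Field K] (s : ℕ) :
    MvPolynomial (Fin 2) (Polynomial K) →ₐ[Polynomial K] MvPolynomial (Fin 2) (Polynomial K) :=
  aeval fun i => C ((Polynomial.X : Polynomial K) ^ s) * X i

/-- Scaling of the variables by `z`. -/
noncomputable def scK {K : Type*} [Field K] (z : K) :
    MvPolynomial (Fin 2) K →ₐ[K] MvPolynomial (Fin 2) K :=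
  aeval fun i => C z * X i

/-- The local data at the node of `e` (in the class of `c`, `kap c = ε`): scaling exponent `s`, generators
`x`, `y` of the scaled node, polynomials `f α β` (`α + β < m`) with
`f (ε^s ·) = ε^(w α β) x^α y^β W α β`, which vanish of order `m` at the other nodes of the class. -/
structure NodeD {K : Type*} [Field K] {E : Type*} (m q : ℕ) (lam kap : ℕ → K) (a b : E → ℕ) (c : ℕ)
    (Z : Set E) (e : E) (s : ℕ) (x y : MvPolynomial (Fin 2) K)
    (f W : ℕ → ℕ → MvPolynomial (Fin 2) (Polynomial K)) (w : ℕ → ℕ → ℕ) : Prop where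
  deg : ∀ α β, α + β < m → (f α β).totalDegree ≤ 2 * m
  wlt : ∀ α β, α + β < m → w α β < q
  scl : ∀ α β, α + β < m →
    scl s (f α β) = C (Polynomial.X ^ w α β) * (Cm x ^ α * Cm y ^ β * W α β)
  const : ∀ P : MvPolynomial (Fin 2) K, ∃ z : K, P - C z ∈ Ideal.span {x, y}
  unit : ∀ α β, α + β < m → ∃ u : K, u ≠ 0 ∧ ev 0 (W α β) - C u ∈ Ideal.span {x, y}
  unscale : ∀ z : K, z ≠ 0 → ∀ P : MvPolynomial (Fin 2) K,
    scK (z ^ s) P ∈ (Ideal.span {x, y}) ^ m →
      P ∈ (nodeI lam (Function.update kap c z) (a e) (b e)) ^ m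
  cross : ∀ z : K, z ≠ 0 → ∀ α β, α + β < m → ∀ e' ∈ Z, e' ≠ e →
    ev z (f α β) ∈ (nodeI lam (Function.update kap c z) (a e') (b e')) ^ m

/-- There are local data. -/
def NodeOK {K : Type*} [Field K] {E : Type*} (m q : ℕ) (lam kap : ℕ → K) (a b : E → ℕ) (c : ℕ)
    (Z : Set E) (e : E) : Prop :=
  ∃ s x y f W w, NodeD m q lam kap a b c Z e s x y f W w

end Spl3
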