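import Pool.Agent.Spl3.Basic

/-!
# Project Spl3 (S-lemma, MP_92924b), module LocA: tools for the local data
-/

namespace Spl3

open MvPolynomial

variable {K : Type*} [Field K]

theorem scl_C (s : ℕ) (r : Polynomial K) :
    scl s (C r : MvPolynomial (Fin 2) (Polynomial K)) = C r := by
  rw [← MvPolynomial.algebraMap_eq, AlgHom.commutes]

theorem scl_X (s : ℕ) (n : Fin 2) :
    scl s (X n : MvPolynomial (Fin 2) (Polynomial K)) = C (Polynomial.X ^ s) * X n := by
  unfold scl
  rw [aeval_X]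

/-- A line through the origin. -/
theorem scl_ln_zero (l : Polynomial K) :
    scl 1 (ln l 0) = C Polynomial.X * ln l 0 := by
  unfold ln
  rw [map_add, map_add, map_mul, scl_X, scl_X, scl_C, scl_C, pow_one, C_0]
  ring

/-- A line at distance `ε`. -/
theorem scl_ln_X (l : Polynomial K) :
    scl 1 (ln l Polynomial.X) = C Polynomial.X * ln l 1 := by
  unfold ln
  rw [map_add, map_add, map_mul, scl_X, scl_X, scl_C, scl_C, pow_one, C_1]
  ring

theorem scl_zero (P : MvPolynomial (Fin 2) (Polynomial K)) : scl 0 P = P := by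
  have h : scl 0 = AlgHom.id (Polynomial K) (MvPolynomial (Fin 2) (Polynomial K)) := by
    refine MvPolynomial.algHom_ext fun n => ?_
    rw [scl_X, pow_zero, C_1, one_mul, AlgHom.id_apply]
  rw [h, AlgHom.id_apply]

theorem scK_X (z : K) (n : Fin 2) : scK z (X n : MvPolynomial (Fin 2) K) = C z * X n := by
  unfold scK
  rw [aeval_X]

theorem scK_C' (z u : K) : scK z (C u : MvPolynomial (Fin 2) K) = C u := by
  rw [← MvPolynomial.algebraMap_eq, AlgHom.commutes]

theorem scK_scK {z : K} (hz : z ≠ 0) (P : MvPolynomial (Fin 2) K) : scK z⁻¹ (scK z P) = P := by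
  have h : (scK z⁻¹).comp (scK z) = AlgHom.id K (MvPolynomial (Fin 2) K) := by
    refine MvPolynomial.algHom_ext fun n => ?_
    rw [AlgHom.comp_apply, scK_X, map_mul, scK_C', scK_X, ← mul_assoc, ← C_mul,
      mul_inv_cancel₀ hz, C_1, one_mul, AlgHom.id_apply]
  have := DFunLike.congr_fun h P
  simpa using this

theorem Cm_ln (l k : K) : Cm (ln l k) = ln (Polynomial.C l) (Polynomial.C k) := by
  unfold ln
  rw [map_add, map_add, map_mul, Cm_X, Cm_X, Cm_C, Cm_C]

theorem Cm_ln_zero (l : K) : Cm (ln l 0) = ln (Polynomial.C l) 0 := by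
  rw [Cm_ln, Polynomial.C_0]

theorem Cm_ln_one (l : K) : Cm (ln l 1) = ln (Polynomial.C l) 1 := by
  rw [Cm_ln, Polynomial.C_1]

theorem deg_ln {R : Type*} [CommRing R] (l k : R) : (ln l k).totalDegree ≤ 1 := by
  unfold ln
  refine (totalDegree_add _ _).trans (max_le ((totalDegree_add _ _).trans (max_le ?_ ?_)) ?_)
  · rcases subsingleton_or_nontrivial R with h | h
    · rw [Subsingleton.elim (X 0 : MvPolynomial (Fin 2) R) 0]; simp
    · rw [totalDegree_X]
  · refine (totalDegree_mul _ _).trans ?_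
    rw [totalDegree_C, zero_add]
    rcases subsingleton_or_nontrivial R with h | h
    · rw [Subsingleton.elim (X 1 : MvPolynomial (Fin 2) R) 0]; simp
    · rw [totalDegree_X]
  · rw [totalDegree_C]; exact Nat.zero_le _

theorem deg_pow {R : Type*} [CommRing R] {P : MvPolynomial (Fin 2) R} (h : P.totalDegree ≤ 1)
    (n : ℕ) : (P ^ n).totalDegree ≤ n :=
  (totalDegree_pow _ _).trans (by simpa using Nat.mul_le_mul_left n h)

/-- Units modulo an ideal. -/
def Un (J : Ideal (MvPolynomial (Fin 2) K)) (P : MvPolynomial (Fin 2) K) : Prop :=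
  ∃ u : K, u ≠ 0 ∧ P - C u ∈ J

theorem Un.mul {J : Ideal (MvPolynomial (Fin 2) K)} {P Q : MvPolynomial (Fin 2) K}
    (hP : Un J P) (hQ : Un J Q) : Un J (P * Q) := by
  obtain ⟨u, hu, h1⟩ := hP
  obtain ⟨v, hv, h2⟩ := hQ
  refine ⟨u * v, mul_ne_zero hu hv, ?_⟩
  have := J.add_mem (J.mul_mem_right Q h1) (J.mul_mem_left (C u) h2)
  rw [C_mul]
  rwa [show (P - C u) * Q + C u * (Q - C v) = P * Q - C u * C v by ring] at this

theorem Un.pow {J : Ideal (MvPolynomial (Fin 2) K)} {P : MvPolynomial (Fin 2) K}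
    (hP : Un J P) (n : ℕ) : Un J (P ^ n) := by
  induction n with
  | zero => exact ⟨1, one_ne_zero, by rw [pow_zero, C_1, sub_self]; exact J.zero_mem⟩
  | succ n ih => rw [pow_succ]; exact ih.mul hP

/-- The ideal of a node depends only on the set of the two vertices. -/
theorem nodeI_congr {R : Type*} [CommRing R] (lam kap : ℕ → R) {a b u v : ℕ}
    (h : ({a, b} : Finset ℕ) = {u, v}) : nodeI lam kap a b = nodeI lam kap u v := by
  have h1 : ∀ a b : ℕ, nodeI lam kap a b =
      Ideal.span ((fun v => ln (lam v) (kap v)) '' (({a, b} : Finset ℕ) : Set ℕ)) := by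
    intro a b
    unfold nodeI
    congr 1
    rw [Finset.coe_insert, Finset.coe_singleton, Set.image_pair]
  rw [h1, h1, h]

/-- Unscaling. -/
theorem unscale_mem {x y : MvPolynomial (Fin 2) K} {z : K} (hz : z ≠ 0) {m : ℕ}
    {I : Ideal (MvPolynomial (Fin 2) K)} (hx : scK z⁻¹ x ∈ I) (hy : scK z⁻¹ y ∈ I)
    {P : MvPolynomial (Fin 2) K} (h : scK z P ∈ (Ideal.span {x, y}) ^ m) : P ∈ I ^ m := by
  have h1 := Ideal.mem_map_of_mem (scK z⁻¹) h
  rw [scK_scK hz, Ideal.map_pow] at h1
  refine Ideal.pow_right_mono ?_ m h1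
  rw [Ideal.map_span, Ideal.span_le]
  rintro _ ⟨w, hw, rfl⟩
  rcases hw with rfl | hw
  · exact hx
  · rw [Set.mem_singleton_iff.1 hw]; exact hy

/-- Products of powers. -/
theorem pow_mul_pow_mem {R : Type*} [CommRing R] {I : Ideal R} {u v : R} (hu : u ∈ I) (hv : v ∈ I)
    {r s m : ℕ} (h : m ≤ r + s) : u ^ r * v ^ s ∈ I ^ m := by
  have h1 : u ^ r * v ^ s ∈ I ^ (r + s) := by
    rw [pow_add]
    exact Ideal.mul_mem_mul (Ideal.pow_mem_pow hu r) (Ideal.pow_mem_pow hv s)
  exact Ideal.pow_le_pow_right h h1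

theorem ln_left_mem {R : Type*} [CommRing R] (lam kap : ℕ → R) (u v : ℕ) :
    ln (lam u) (kap u) ∈ nodeI lam kap u v := Ideal.subset_span (by simp)

theorem ln_right_mem {R : Type*} [CommRing R] (lam kap : ℕ → R) (u v : ℕ) :
    ln (lam v) (kap v) ∈ nodeI lam kap u v := Ideal.subset_span (by simp)

/-- The value of a line through the origin at a near node. -/
theorem un_near {lL lR lc : K} (h1 : lL ≠ lR) (h2 : lc ≠ lL) :
    Un (Ideal.span {ln lL 0, ln lc 1}) (ln lR 0) := by
  have h3 : lc - lL ≠ 0 := sub_ne_zero.2 h2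
  refine ⟨-((lR - lL) / (lc - lL)), neg_ne_zero.2 (div_ne_zero (sub_ne_zero.2 h1.symm) h3), ?_⟩
  have hx : ln lL 0 ∈ Ideal.span {ln lL 0, ln lc (1 : K)} := Ideal.subset_span (by simp)
  have hy : ln lc 1 ∈ Ideal.span {ln lL 0, ln lc (1 : K)} := Ideal.subset_span (by simp)
  have h4 := Ideal.add_mem _ hx (Ideal.mul_mem_left _ (C ((lR - lL) / (lc - lL)))
    (Ideal.sub_mem _ hy hx))
  have h5 : ln lL 0 + C ((lR - lL) / (lc - lL)) * (ln lc 1 - ln lL 0) =
      ln lR 0 - C (-((lR - lL) / (lc - lL))) := by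
    have h6 : (C ((lR - lL) / (lc - lL)) * (C lc - C lL) : MvPolynomial (Fin 2) K) =
        C lR - C lL := by
      rw [← C_sub, ← C_mul, ← C_sub, div_mul_cancel₀ _ h3]
    unfold ln
    rw [C_neg, C_0, C_1]
    linear_combination (X 1) * h6
  rwa [h5] at h4

/-- The value at the origin of a line which does not contain it. -/
theorem un_origin {lL lR : K} (lc : K) (h1 : lL ≠ lR) :
    Un (Ideal.span {ln lL 0, ln lR 0}) (ln lc 1) := by
  have h3 : lR - lL ≠ 0 := sub_ne_zero.2 h1.symm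
  refine ⟨1, one_ne_zero, ?_⟩
  have hx : ln lL 0 ∈ Ideal.span {ln lL 0, ln lR (0 : K)} := Ideal.subset_span (by simp)
  have hy : ln lR 0 ∈ Ideal.span {ln lL 0, ln lR (0 : K)} := Ideal.subset_span (by simp)
  have h4 := Ideal.add_mem _ hx (Ideal.mul_mem_left _ (C ((lc - lL) / (lR - lL)))
    (Ideal.sub_mem _ hy hx))
  have h5 : ln lL 0 + C ((lc - lL) / (lR - lL)) * (ln lR 0 - ln lL 0) =
      ln lc 1 - C 1 := by
    have h6 : (C ((lc - lL) / (lR - lL)) * (C lR - C lL) : MvPolynomial (Fin 2) K) =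
        C lc - C lL := by
      rw [← C_sub, ← C_mul, ← C_sub, div_mul_cancel₀ _ h3]
    unfold ln
    rw [C_0]
    linear_combination (X 1) * h6
  rwa [h5] at h4

theorem scK_ln_zero (z l : K) : scK z (ln l 0) = C z * ln l 0 := by
  unfold ln
  rw [map_add, map_add, map_mul, scK_X, scK_X, scK_C', scK_C', C_0]
  ring

theorem scK_ln_one {z : K} (hz : z ≠ 0) (l : K) : scK z⁻¹ (ln l 1) = C z⁻¹ * ln l z := by
  unfold ln
  rw [map_add, map_add, map_mul, scK_X, scK_X, scK_C', scK_C']
  have h : (C z⁻¹ * C z : MvPolynomial (Fin 2) K) = 1 := by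
    rw [← C_mul, inv_mul_cancel₀ hz, C_1]
  rw [C_1]
  linear_combination -h

/-- Unscaling at a near node. -/
theorem unscale_near {E : Type*} {m c wL : ℕ} {lam kap : ℕ → K} (hL : wL < c) (hkL : kap wL = 0)
    {a b : E → ℕ} {e : E} (he : ({a e, b e} : Finset ℕ) = {c, wL}) {z : K} (hz : z ≠ 0)
    {P : MvPolynomial (Fin 2) K}
    (hP : scK (z ^ 1) P ∈ (Ideal.span {ln (lam wL) 0, ln (lam c) 1}) ^ m) :
    P ∈ (nodeI lam (Function.update kap c z) (a e) (b e)) ^ m := by
  rw [pow_one] at hP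
  rw [nodeI_congr _ _ he]
  have h1 := ln_left_mem lam (Function.update kap c z) c wL
  have h2 := ln_right_mem lam (Function.update kap c z) c wL
  rw [Function.update_self] at h1
  rw [Function.update_of_ne hL.ne, hkL] at h2
  refine unscale_mem hz ?_ ?_ hP
  · rw [scK_ln_zero]; exact Ideal.mul_mem_left _ _ h2
  · rw [scK_ln_one hz]; exact Ideal.mul_mem_left _ _ h1

theorem const_node {l l' u u' : K} (h : l ≠ l') (P : MvPolynomial (Fin 2) K) :
    ∃ z : K, P - C z ∈ Ideal.span {ln l u, ln l' u'} :=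
  node_const (u := Units.mk0 (l - l') (sub_ne_zero.2 h)) rfl P

/-- The lines at `ε = z` are in the ideals of the nodes. -/
theorem near_mem {c w : ℕ} {lam kap : ℕ → K} (hw : w ≠ c) (hk : kap w = 0) (z : K) (v : ℕ) :
    ln (lam w) 0 ∈ nodeI lam (Function.update kap c z) w v := by
  have h1 := ln_left_mem lam (Function.update kap c z) w v
  rwa [Function.update_of_ne hw, hk] at h1

theorem near_mem' {c w : ℕ} {lam kap : ℕ → K} (hw : w ≠ c) (hk : kap w = 0) (z : K) (v : ℕ) :
    ln (lam w) 0 ∈ nodeI lam (Function.update kap c z) v w := by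
  have h1 := ln_right_mem lam (Function.update kap c z) v w
  rwa [Function.update_of_ne hw, hk] at h1

theorem top_mem {c : ℕ} {lam kap : ℕ → K} (z : K) (v : ℕ) :
    ln (lam c) z ∈ nodeI lam (Function.update kap c z) c v := by
  have h1 := ln_left_mem lam (Function.update kap c z) c v
  rwa [Function.update_self] at h1

theorem ev_ln_zero (z l : K) : ev z (ln (Polynomial.C l) 0) = ln l 0 := by
  rw [ev_ln, Polynomial.eval_C, Polynomial.eval_zero]

theorem ev_ln_X (z l : K) : ev z (ln (Polynomial.C l) Polynomial.X) = ln l z := by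
  rw [ev_ln, Polynomial.eval_C, Polynomial.eval_X]

end Spl3
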