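import Pool.Agent.Spl3.LocA

/-!
# Project Spl3 (S-lemma, MP_92924b), module LocQuad: the class with the nodes `{c, wL}`, `{c, wR}`, `{wL, zL}`,
`{wR, zR}`

`U`, `V` lines of `wL`, `wR` (through the origin), `L` line of `c` (at distance `ε`), `Λ` line through the two
far nodes.  Near node `{c, wL}`: `f = U^α L^β Λ^(m-α) V^(m-β)`, scaling by `ε`; far node `{wL, zL}`:
`f = U^α Λ^β L^(m-α) V^(m-β)`, no scaling.
-/

namespace Spl3

open MvPolynomial

variable {K : Type*} [Field K] {E : Type*} {m q c wL wR zL zR : ℕ} {lam kap : ℕ → K} {a b : E → ℕ}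
  {Z : Set E} {e : E}

/-- The line through the far nodes. -/
noncomputable def Lam (α γ : K) : MvPolynomial (Fin 2) K := 1 - C α * X 0 + C γ * X 1

theorem deg_Lam (α γ : K) : (Lam α γ).totalDegree ≤ 1 := by
  unfold Lam
  refine (totalDegree_add _ _).trans (max_le ((totalDegree_sub _ _).trans (max_le ?_ ?_)) ?_)
  · rw [totalDegree_one]; exact Nat.zero_le _
  · refine (totalDegree_mul _ _).trans ?_
    rw [totalDegree_C, totalDegree_X]
  · refine (totalDegree_mul _ _).trans ?_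
    rw [totalDegree_C, totalDegree_X]

theorem lam_mem {α γ : K} {κ : ℕ → K} (hw : κ wL = 0) (hz : κ zL ≠ 0)
    (h : γ * κ zL = lam zL - lam wL - α * lam wL * κ zL) :
    Lam α γ ∈ nodeI lam κ wL zL := by
  have h1 := ln_left_mem lam κ wL zL
  have h2 := ln_right_mem lam κ wL zL
  rw [hw] at h1
  have h3 := Ideal.mul_mem_left _ (C (κ zL)⁻¹) (Ideal.sub_mem _ (Ideal.sub_mem _ h2 h1)
    (Ideal.mul_mem_left _ (C (α * κ zL)) h1))
  have h4 : C (κ zL)⁻¹ * (ln (lam zL) (κ zL) - ln (lam wL) 0 - C (α * κ zL) * ln (lam wL) 0) =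
      Lam α γ := by
    have h5 : (C (κ zL)⁻¹ * C (κ zL) : MvPolynomial (Fin 2) K) = 1 := by
      rw [← C_mul, inv_mul_cancel₀ hz, C_1]
    have h6 : (C γ * C (κ zL) : MvPolynomial (Fin 2) K) =
        C (lam zL) - C (lam wL) - C α * C (lam wL) * C (κ zL) := by
      rw [← C_mul, h]
      simp only [C_mul, C_sub]
    unfold ln Lam
    rw [C_0, C_mul]
    linear_combination (1 - C α * X 0 + C γ * X 1) * h5 - C (κ zL)⁻¹ * X 1 * h6
  rwa [h4] at h3

/-- The second coordinate at the far node. -/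
theorem far_X1 {α γ lL lz kz : K} (hlz : lL ≠ lz)
    (h : γ * kz = lz - lL - α * lL * kz) :
    X 1 - C (kz / (lL - lz)) ∈ Ideal.span {ln lL 0, Lam α γ} := by
  have hx : ln lL 0 ∈ Ideal.span {ln lL 0, Lam α γ} := Ideal.subset_span (by simp)
  have hy : Lam α γ ∈ Ideal.span {ln lL 0, Lam α γ} := Ideal.subset_span (by simp)
  have h3 : lL - lz ≠ 0 := sub_ne_zero.2 hlz
  have h4 := Ideal.mul_mem_left _ (C (-(kz / (lL - lz)))) (Ideal.add_mem _ hy
    (Ideal.mul_mem_left _ (C α) hx))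
  have h5 : C (-(kz / (lL - lz))) * (Lam α γ + C α * ln lL 0) = X 1 - C (kz / (lL - lz)) := by
    have h6 : -(kz / (lL - lz)) * (γ + α * lL) = 1 := by
      have h7 : (γ + α * lL) * kz = lz - lL := by linear_combination h
      field_simp
      linear_combination -h7
    have h8 : (C (-(kz / (lL - lz))) * (C γ + C α * C lL) : MvPolynomial (Fin 2) K) = 1 := by
      rw [← C_mul, ← C_add, ← C_mul, h6, C_1]
    unfold ln Lam
    rw [C_0]
    rw [C_neg] at h8 ⊢
    linear_combination (X 1) * h8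
  rwa [h5] at h4

theorem un_far {α γ lL lz kz l : K} (hlz : lL ≠ lz) (hkz : kz ≠ 0)
    (h : γ * kz = lz - lL - α * lL * kz) (hl : l ≠ lL) :
    Un (Ideal.span {ln lL 0, Lam α γ}) (ln l 0) := by
  have h3 : lL - lz ≠ 0 := sub_ne_zero.2 hlz
  refine ⟨(l - lL) * (kz / (lL - lz)), mul_ne_zero (sub_ne_zero.2 hl) (div_ne_zero hkz h3), ?_⟩
  have hx : ln lL 0 ∈ Ideal.span {ln lL 0, Lam α γ} := Ideal.subset_span (by simp)
  have h4 := Ideal.add_mem _ hx (Ideal.mul_mem_left _ (C (l - lL)) (far_X1 hlz h))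
  have h5 : ln lL 0 + C (l - lL) * (X 1 - C (kz / (lL - lz))) =
      ln l 0 - C ((l - lL) * (kz / (lL - lz))) := by
    unfold ln
    rw [C_mul, C_sub]
    ring
  rwa [h5] at h4

theorem const_far {α γ lL lz kz : K} (hlz : lL ≠ lz)
    (h : γ * kz = lz - lL - α * lL * kz) (P : MvPolynomial (Fin 2) K) :
    ∃ z : K, P - C z ∈ Ideal.span {ln lL 0, Lam α γ} := by
  refine ⟨eval ![-(lL * (kz / (lL - lz))), kz / (lL - lz)] P, sub_C_mem ?_ P⟩
  have hx : ln lL 0 ∈ Ideal.span {ln lL 0, Lam α γ} := Ideal.subset_span (by simp)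
  have h1 := far_X1 hlz h
  intro n
  fin_cases n
  · have h4 := Ideal.sub_mem _ hx (Ideal.mul_mem_left _ (C lL) h1)
    have h5 : ln lL 0 - C lL * (X 1 - C (kz / (lL - lz))) =
        X 0 - C (-(lL * (kz / (lL - lz)))) := by
      unfold ln
      rw [C_neg, C_mul, C_0]
      ring
    rw [h5] at h4
    exact h4
  · exact h1

theorem un_Lam_zero (J : Ideal (MvPolynomial (Fin 2) K)) (α γ : K) :
    Un J (ev 0 (scl 1 (Cm (Lam α γ)))) := by
  refine ⟨1, one_ne_zero, ?_⟩
  have h : ev 0 (scl 1 (Cm (Lam α γ))) = C 1 := by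
    rw [ev_scl, ev_Cm, pow_one]
    unfold Lam
    rw [map_add, map_sub, map_one, map_mul, map_mul, scK_X, scK_X, C_0, C_1]
    ring
  rw [h, sub_self]
  exact J.zero_mem

theorem near_quad (hlam : Function.Injective lam) (hLR : wL ≠ wR) (hL : wL < c) (hR : wR < c)
    (hzL : c < zL) (hzR : c < zR) (hkL : kap wL = 0) (hkR : kap wR = 0) (hkzL : kap zL ≠ 0)
    (hkzR : kap zR ≠ 0) {α γ : K} (hαL : γ * kap zL = lam zL - lam wL - α * lam wL * kap zL)
    (hαR : γ * kap zR = lam zR - lam wR - α * lam wR * kap zR) (hq : 2 * m ≤ q)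
    (he : ({a e, b e} : Finset ℕ) = {c, wL})
    (hZ : ∀ e' ∈ Z, e' ≠ e → ({a e', b e'} : Finset ℕ) = {c, wR} ∨
      ({a e', b e'} : Finset ℕ) = {wL, zL} ∨ ({a e', b e'} : Finset ℕ) = {wR, zR}) :
    NodeOK m q lam kap a b c Z e := by
  refine ⟨1, ln (lam wL) 0, ln (lam c) 1,
    fun i j => ln (Polynomial.C (lam wL)) 0 ^ i * ln (Polynomial.C (lam c)) Polynomial.X ^ j *
      (Cm (Lam α γ) ^ (m - i) * ln (Polynomial.C (lam wR)) 0 ^ (m - j)),
    fun i j => scl 1 (Cm (Lam α γ)) ^ (m - i) * ln (Polynomial.C (lam wR)) 0 ^ (m - j),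
    fun i _ => i + m, ⟨fun i j hij => ?_, fun i j hij => ?_, fun i j hij => ?_, fun P => ?_,
      fun i j hij => ?_, fun z hz P hP => ?_, fun z hz i j hij e' he' hne => ?_⟩⟩
  · have h1 := totalDegree_mul (ln (Polynomial.C (lam wL)) 0 ^ i *
      ln (Polynomial.C (lam c)) Polynomial.X ^ j)
      (Cm (Lam α γ) ^ (m - i) * ln (Polynomial.C (lam wR)) 0 ^ (m - j))
    have h2 := totalDegree_mul (ln (Polynomial.C (lam wL)) 0 ^ i)
      (ln (Polynomial.C (lam c)) Polynomial.X ^ j)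
    have h2' := totalDegree_mul (Cm (Lam α γ) ^ (m - i))
      (ln (Polynomial.C (lam wR)) 0 ^ (m - j))
    have h3 := deg_pow (deg_ln (Polynomial.C (lam wL)) 0) i
    have h4 := deg_pow (deg_ln (Polynomial.C (lam c)) Polynomial.X) j
    have h5 := deg_pow (deg_ln (Polynomial.C (lam wR)) 0) (m - j)
    have h6 := deg_pow ((totalDegree_Cm_le _).trans (deg_Lam α γ)) (m - i)
    omega
  · omega
  · rw [map_mul, map_mul, map_mul, map_pow, map_pow, map_pow, map_pow, scl_ln_zero, scl_ln_X,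
      scl_ln_zero, Cm_ln_zero, Cm_ln_one, C_pow, mul_pow, mul_pow, mul_pow]
    obtain ⟨r, hr⟩ : ∃ r, m = j + r := ⟨m - j, by omega⟩
    have h1 : m - j = r := by omega
    rw [h1]
    have h2 : (C Polynomial.X : MvPolynomial (Fin 2) (Polynomial K)) ^ (i + m) =
        C Polynomial.X ^ i * C Polynomial.X ^ j * C Polynomial.X ^ r := by
      rw [hr]; ring
    rw [h2]
    ring
  · exact const_node (hlam.ne hL.ne) P
  · rw [map_mul, map_pow, map_pow, ev_ln_zero]
    exact ((un_Lam_zero _ α γ).pow _).mul ((un_near (hlam.ne hLR) (hlam.ne hL.ne')).pow _)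
  · exact unscale_near hL hkL he hz hP
  · rw [map_mul, map_mul, map_mul, map_pow, map_pow, map_pow, map_pow, ev_ln_zero, ev_ln_zero,
      ev_ln_X, ev_Cm]
    rcases hZ e' he' hne with h | h | h
    · rw [nodeI_congr _ _ h]
      have h1 := pow_mul_pow_mem (top_mem (lam := lam) (kap := kap) (c := c) z wR)
        (near_mem' (lam := lam) hR.ne hkR z c) (r := j) (s := m - j) (m := m) (by omega)
      have h2 := Ideal.mul_mem_left _ (ln (lam wL) 0 ^ i * Lam α γ ^ (m - i)) h1
      rwa [show ln (lam wL) 0 ^ i * Lam α γ ^ (m - i) * (ln (lam c) z ^ j * ln (lam wR) 0 ^ (m - j)) =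
        ln (lam wL) 0 ^ i * ln (lam c) z ^ j * (Lam α γ ^ (m - i) * ln (lam wR) 0 ^ (m - j)) by
          ring] at h2
    · rw [nodeI_congr _ _ h]
      have hΛ : Lam α γ ∈ nodeI lam (Function.update kap c z) wL zL := lam_mem
        (by rw [Function.update_of_ne hL.ne, hkL]) (by rw [Function.update_of_ne hzL.ne']; exact hkzL)
        (by rw [Function.update_of_ne hzL.ne']; exact hαL)
      have h1 := pow_mul_pow_mem (near_mem (lam := lam) hL.ne hkL z zL) hΛ
        (r := i) (s := m - i) (m := m) (by omega)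
      have h2 := Ideal.mul_mem_left _ (ln (lam c) z ^ j * ln (lam wR) 0 ^ (m - j)) h1
      rwa [show ln (lam c) z ^ j * ln (lam wR) 0 ^ (m - j) * (ln (lam wL) 0 ^ i * Lam α γ ^ (m - i)) =
        ln (lam wL) 0 ^ i * ln (lam c) z ^ j * (Lam α γ ^ (m - i) * ln (lam wR) 0 ^ (m - j)) by
          ring] at h2
    · rw [nodeI_congr _ _ h]
      have hΛ : Lam α γ ∈ nodeI lam (Function.update kap c z) wR zR := lam_mem
        (by rw [Function.update_of_ne hR.ne, hkR]) (by rw [Function.update_of_ne hzR.ne']; exact hkzR)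
        (by rw [Function.update_of_ne hzR.ne']; exact hαR)
      exact Ideal.mul_mem_left _ _ (pow_mul_pow_mem hΛ (near_mem (lam := lam) hR.ne hkR z zR)
        (by omega))

theorem far_quad (hlam : Function.Injective lam) (hLR : wL ≠ wR) (hL : wL < c) (hR : wR < c)
    (hzL : c < zL) (hzR : c < zR) (hkL : kap wL = 0) (hkR : kap wR = 0) (hkzL : kap zL ≠ 0)
    (hkzR : kap zR ≠ 0) {α γ : K} (hαL : γ * kap zL = lam zL - lam wL - α * lam wL * kap zL)
    (hαR : γ * kap zR = lam zR - lam wR - α * lam wR * kap zR) (hq : 2 * m ≤ q)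
    (he : ({a e, b e} : Finset ℕ) = {wL, zL})
    (hZ : ∀ e' ∈ Z, e' ≠ e → ({a e', b e'} : Finset ℕ) = {c, wL} ∨
      ({a e', b e'} : Finset ℕ) = {c, wR} ∨ ({a e', b e'} : Finset ℕ) = {wR, zR}) :
    NodeOK m q lam kap a b c Z e := by
  refine ⟨0, ln (lam wL) 0, Lam α γ,
    fun i j => ln (Polynomial.C (lam wL)) 0 ^ i * Cm (Lam α γ) ^ j *
      (ln (Polynomial.C (lam c)) Polynomial.X ^ (m - i) *
        ln (Polynomial.C (lam wR)) 0 ^ (m - j)),
    fun i j => ln (Polynomial.C (lam c)) Polynomial.X ^ (m - i) *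
      ln (Polynomial.C (lam wR)) 0 ^ (m - j),
    fun _ _ => 0, ⟨fun i j hij => ?_, fun i j hij => ?_, fun i j hij => ?_, fun P => ?_,
      fun i j hij => ?_, fun z hz P hP => ?_, fun z hz i j hij e' he' hne => ?_⟩⟩
  · have h1 := totalDegree_mul (ln (Polynomial.C (lam wL)) 0 ^ i * Cm (Lam α γ) ^ j)
      (ln (Polynomial.C (lam c)) Polynomial.X ^ (m - i) *
        ln (Polynomial.C (lam wR)) 0 ^ (m - j))
    have h2 := totalDegree_mul (ln (Polynomial.C (lam wL)) 0 ^ i) (Cm (Lam α γ) ^ j)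
    have h2' := totalDegree_mul (ln (Polynomial.C (lam c)) Polynomial.X ^ (m - i))
      (ln (Polynomial.C (lam wR)) 0 ^ (m - j))
    have h3 := deg_pow (deg_ln (Polynomial.C (lam wL)) 0) i
    have h4 := deg_pow (deg_ln (Polynomial.C (lam c)) Polynomial.X) (m - i)
    have h5 := deg_pow (deg_ln (Polynomial.C (lam wR)) 0) (m - j)
    have h6 := deg_pow ((totalDegree_Cm_le _).trans (deg_Lam α γ)) j
    omega
  · omega
  · rw [scl_zero, pow_zero, C_1, one_mul, Cm_ln_zero]
  · exact const_far (hlam.ne (hL.trans hzL).ne) hαL P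
  · rw [map_mul, map_pow, map_pow, ev_ln_zero, ev_ln_X]
    exact ((un_far (hlam.ne (hL.trans hzL).ne) hkzL hαL (hlam.ne hL.ne')).pow _).mul
      ((un_far (hlam.ne (hL.trans hzL).ne) hkzL hαL (hlam.ne hLR.symm)).pow _)
  · have hid : scK (z ^ 0) P = P := by
      have h : scK (z ^ 0) = AlgHom.id K (MvPolynomial (Fin 2) K) := by
        refine MvPolynomial.algHom_ext fun n => ?_
        rw [scK_X, pow_zero, C_1, one_mul, AlgHom.id_apply]
      rw [h, AlgHom.id_apply]
    rw [hid] at hP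
    rw [nodeI_congr _ _ he]
    refine Ideal.pow_right_mono ?_ m hP
    rw [Ideal.span_le]
    rintro w hw
    rcases hw with rfl | hw
    · exact near_mem hL.ne hkL z zL
    · rw [Set.mem_singleton_iff.1 hw]
      exact lam_mem (by rw [Function.update_of_ne hL.ne, hkL])
        (by rw [Function.update_of_ne hzL.ne']; exact hkzL)
        (by rw [Function.update_of_ne hzL.ne']; exact hαL)
  · rw [map_mul, map_mul, map_mul, map_pow, map_pow, map_pow, map_pow, ev_ln_zero, ev_ln_zero,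
      ev_ln_X, ev_Cm]
    rcases hZ e' he' hne with h | h | h
    · rw [nodeI_congr _ _ h]
      have h1 := pow_mul_pow_mem (near_mem' (lam := lam) hL.ne hkL z c)
        (top_mem (lam := lam) (kap := kap) (c := c) z wL) (r := i) (s := m - i) (m := m) (by omega)
      have h2 := Ideal.mul_mem_left _ (Lam α γ ^ j * ln (lam wR) 0 ^ (m - j)) h1
      rwa [show Lam α γ ^ j * ln (lam wR) 0 ^ (m - j) * (ln (lam wL) 0 ^ i * ln (lam c) z ^ (m - i)) =
        ln (lam wL) 0 ^ i * Lam α γ ^ j * (ln (lam c) z ^ (m - i) * ln (lam wR) 0 ^ (m - j)) by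
          ring] at h2
    · rw [nodeI_congr _ _ h]
      exact Ideal.mul_mem_left _ _ (pow_mul_pow_mem
        (top_mem (lam := lam) (kap := kap) (c := c) z wR)
        (near_mem' (lam := lam) hR.ne hkR z c) (by omega))
    · rw [nodeI_congr _ _ h]
      have hΛ : Lam α γ ∈ nodeI lam (Function.update kap c z) wR zR := lam_mem
        (by rw [Function.update_of_ne hR.ne, hkR]) (by rw [Function.update_of_ne hzR.ne']; exact hkzR)
        (by rw [Function.update_of_ne hzR.ne']; exact hαR)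
      have h1 := pow_mul_pow_mem hΛ (near_mem (lam := lam) hR.ne hkR z zR)
        (r := j) (s := m - j) (m := m) (by omega)
      have h2 := Ideal.mul_mem_left _ (ln (lam wL) 0 ^ i * ln (lam c) z ^ (m - i)) h1
      rwa [show ln (lam wL) 0 ^ i * ln (lam c) z ^ (m - i) * (Lam α γ ^ j * ln (lam wR) 0 ^ (m - j)) =
        ln (lam wL) 0 ^ i * Lam α γ ^ j * (ln (lam c) z ^ (m - i) * ln (lam wR) 0 ^ (m - j)) by
          ring] at h2

/-- The line through the far nodes exists. -/
theorem exists_Lam (hlam : Function.Injective lam) (hLR : wL ≠ wR) (hkzL : kap zL ≠ 0)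
    (hkzR : kap zR ≠ 0) : ∃ α γ : K, γ * kap zL = lam zL - lam wL - α * lam wL * kap zL ∧
      γ * kap zR = lam zR - lam wR - α * lam wR * kap zR := by
  have h0 : lam wL - lam wR ≠ 0 := sub_ne_zero.2 (hlam.ne hLR)
  refine ⟨((lam zL - lam wL) / kap zL - (lam zR - lam wR) / kap zR) / (lam wL - lam wR),
    (lam zL - lam wL) / kap zL - ((lam zL - lam wL) / kap zL - (lam zR - lam wR) / kap zR) /
      (lam wL - lam wR) * lam wL, ?_, ?_⟩
  · field_simp
  · field_simp
    ring

/-- The class with four nodes. -/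
theorem nodeOK_quad (hlam : Function.Injective lam) (hLR : wL ≠ wR) (hL : wL < c) (hR : wR < c)
    (hzL : c < zL) (hzR : c < zR) (hkL : kap wL = 0) (hkR : kap wR = 0) (hkzL : kap zL ≠ 0)
    (hkzR : kap zR ≠ 0) (hq : 2 * m ≤ q)
    (hinj : ∀ e e' : E, ({a e, b e} : Finset ℕ) = {a e', b e'} → e = e')
    (hZ : ∀ e ∈ Z, ({a e, b e} : Finset ℕ) = {c, wL} ∨ ({a e, b e} : Finset ℕ) = {c, wR} ∨
      ({a e, b e} : Finset ℕ) = {wL, zL} ∨ ({a e, b e} : Finset ℕ) = {wR, zR}) (he : e ∈ Z) :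
    NodeOK m q lam kap a b c Z e := by
  obtain ⟨α, γ, hαL, hαR⟩ := exists_Lam hlam hLR hkzL hkzR
  rcases hZ e he with h | h | h | h
  · refine near_quad hlam hLR hL hR hzL hzR hkL hkR hkzL hkzR hαL hαR hq h fun e' he' hne => ?_
    rcases hZ e' he' with h' | h' | h' | h'
    · exact absurd (hinj _ _ (h'.trans h.symm)) hne
    · exact Or.inl h'
    · exact Or.inr (Or.inl h')
    · exact Or.inr (Or.inr h')
  · refine near_quad hlam hLR.symm hR hL hzR hzL hkR hkL hkzR hkzL hαR hαL hq h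
      fun e' he' hne => ?_
    rcases hZ e' he' with h' | h' | h' | h'
    · exact Or.inl h'
    · exact absurd (hinj _ _ (h'.trans h.symm)) hne
    · exact Or.inr (Or.inr h')
    · exact Or.inr (Or.inl h')
  · refine far_quad hlam hLR hL hR hzL hzR hkL hkR hkzL hkzR hαL hαR hq h fun e' he' hne => ?_
    rcases hZ e' he' with h' | h' | h' | h'
    · exact Or.inl h'
    · exact Or.inr (Or.inl h')
    · exact absurd (hinj _ _ (h'.trans h.symm)) hne
    · exact Or.inr (Or.inr h')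
  · refine far_quad hlam hLR.symm hR hL hzR hzL hkR hkL hkzR hkzL hαR hαL hq h
      fun e' he' hne => ?_
    rcases hZ e' he' with h' | h' | h' | h'
    · exact Or.inr (Or.inl h')
    · exact Or.inl h'
    · exact Or.inr (Or.inr h')
    · exact absurd (hinj _ _ (h'.trans h.symm)) hne

end Spl3
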