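import Pool.Agent.Spl3.LocA

/-!
# Project Spl3 (S-lemma, MP_92924b), module LocTri: the class with the nodes `{c, wL}`, `{c, wR}`, `{wL, wR}`

`U`, `V` lines of `wL`, `wR` (through the origin), `L` line of `c` (at distance `ε`).  Near node `{c, wL}`:
`f = U^α L^β V^m`, the third node: `f = U^α V^β L^m`; scaling by `ε`.
-/

namespace Spl3

open MvPolynomial

variable {K : Type*} [Field K] {E : Type*} {m q c wL wR : ℕ} {lam kap : ℕ → K} {a b : E → ℕ}
  {Z : Set E} {e : E}

theorem near_tri (hlam : Function.Injective lam) (hLR : wL ≠ wR) (hL : wL < c) (hR : wR < c)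
    (hkL : kap wL = 0) (hkR : kap wR = 0) (hq : 2 * m ≤ q)
    (he : ({a e, b e} : Finset ℕ) = {c, wL})
    (hZ : ∀ e' ∈ Z, e' ≠ e → ({a e', b e'} : Finset ℕ) = {c, wR} ∨
      ({a e', b e'} : Finset ℕ) = {wL, wR}) : NodeOK m q lam kap a b c Z e := by
  refine ⟨1, ln (lam wL) 0, ln (lam c) 1,
    fun α β => ln (Polynomial.C (lam wL)) 0 ^ α * ln (Polynomial.C (lam c)) Polynomial.X ^ β *
      ln (Polynomial.C (lam wR)) 0 ^ m, fun _ _ => ln (Polynomial.C (lam wR)) 0 ^ m,
    fun α β => α + β + m, ⟨fun α β hαβ => ?_, fun α β hαβ => ?_, fun α β hαβ => ?_, fun P => ?_,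
      fun α β hαβ => ?_, fun z hz P hP => ?_, fun z hz α β hαβ e' he' hne => ?_⟩⟩
  · have h1 := (totalDegree_mul (ln (Polynomial.C (lam wL)) 0 ^ α *
      ln (Polynomial.C (lam c)) Polynomial.X ^ β) (ln (Polynomial.C (lam wR)) 0 ^ m))
    have h2 := (totalDegree_mul (ln (Polynomial.C (lam wL)) 0 ^ α)
      (ln (Polynomial.C (lam c)) Polynomial.X ^ β))
    have h3 := deg_pow (deg_ln (Polynomial.C (lam wL)) 0) α
    have h4 := deg_pow (deg_ln (Polynomial.C (lam c)) Polynomial.X) β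
    have h5 := deg_pow (deg_ln (Polynomial.C (lam wR)) 0) m
    omega
  · omega
  · rw [map_mul, map_mul, map_pow, map_pow, map_pow, scl_ln_zero, scl_ln_X, scl_ln_zero,
      Cm_ln_zero, Cm_ln_one, C_pow]
    ring
  · exact const_node (hlam.ne hL.ne) P
  · rw [map_pow, ev_ln_zero]
    exact (un_near (hlam.ne hLR) (hlam.ne hL.ne')).pow m
  · exact unscale_near hL hkL he hz hP
  · rw [map_mul, map_mul, map_pow, map_pow, map_pow, ev_ln_zero, ev_ln_zero, ev_ln_X]
    refine Ideal.mul_mem_left _ _ (Ideal.pow_mem_pow ?_ m)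
    rcases hZ e' he' hne with h | h
    · rw [nodeI_congr _ _ h]
      exact near_mem' hR.ne hkR z c
    · rw [nodeI_congr _ _ h]
      exact near_mem' hR.ne hkR z wL

theorem far_tri (hlam : Function.Injective lam) (hLR : wL ≠ wR) (hL : wL < c) (hR : wR < c)
    (hkL : kap wL = 0) (hkR : kap wR = 0) (hq : 2 * m ≤ q)
    (he : ({a e, b e} : Finset ℕ) = {wL, wR})
    (hZ : ∀ e' ∈ Z, e' ≠ e → ({a e', b e'} : Finset ℕ) = {c, wL} ∨
      ({a e', b e'} : Finset ℕ) = {c, wR}) : NodeOK m q lam kap a b c Z e := by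
  refine ⟨1, ln (lam wL) 0, ln (lam wR) 0,
    fun α β => ln (Polynomial.C (lam wL)) 0 ^ α * ln (Polynomial.C (lam wR)) 0 ^ β *
      ln (Polynomial.C (lam c)) Polynomial.X ^ m, fun _ _ => ln (Polynomial.C (lam c)) 1 ^ m,
    fun α β => α + β + m, ⟨fun α β hαβ => ?_, fun α β hαβ => ?_, fun α β hαβ => ?_, fun P => ?_,
      fun α β hαβ => ?_, fun z hz P hP => ?_, fun z hz α β hαβ e' he' hne => ?_⟩⟩
  · have h1 := (totalDegree_mul (ln (Polynomial.C (lam wL)) 0 ^ α *
      ln (Polynomial.C (lam wR)) 0 ^ β) (ln (Polynomial.C (lam c)) Polynomial.X ^ m))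
    have h2 := (totalDegree_mul (ln (Polynomial.C (lam wL)) 0 ^ α)
      (ln (Polynomial.C (lam wR)) 0 ^ β))
    have h3 := deg_pow (deg_ln (Polynomial.C (lam wL)) 0) α
    have h4 := deg_pow (deg_ln (Polynomial.C (lam wR)) 0) β
    have h5 := deg_pow (deg_ln (Polynomial.C (lam c)) Polynomial.X) m
    omega
  · omega
  · rw [map_mul, map_mul, map_pow, map_pow, map_pow, scl_ln_zero, scl_ln_X, scl_ln_zero,
      Cm_ln_zero, Cm_ln_zero, C_pow]
    ring
  · exact const_node (hlam.ne hLR) P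
  · rw [map_pow, ev_ln, Polynomial.eval_C, Polynomial.eval_one]
    exact (un_origin (lam c) (hlam.ne hLR)).pow m
  · rw [pow_one] at hP
    rw [nodeI_congr _ _ he]
    refine unscale_mem hz ?_ ?_ hP
    · rw [scK_ln_zero]; exact Ideal.mul_mem_left _ _ (near_mem hL.ne hkL z wR)
    · rw [scK_ln_zero]; exact Ideal.mul_mem_left _ _ (near_mem' hR.ne hkR z wL)
  · rw [map_mul, map_mul, map_pow, map_pow, map_pow, ev_ln_zero, ev_ln_zero, ev_ln_X]
    refine Ideal.mul_mem_left _ _ (Ideal.pow_mem_pow ?_ m)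
    rcases hZ e' he' hne with h | h
    · rw [nodeI_congr _ _ h]
      exact top_mem z wL
    · rw [nodeI_congr _ _ h]
      exact top_mem z wR

/-- The class with three nodes. -/
theorem nodeOK_tri (hlam : Function.Injective lam) (hLR : wL ≠ wR) (hL : wL < c) (hR : wR < c)
    (hkL : kap wL = 0) (hkR : kap wR = 0) (hq : 2 * m ≤ q)
    (hinj : ∀ e e' : E, ({a e, b e} : Finset ℕ) = {a e', b e'} → e = e')
    (hZ : ∀ e ∈ Z, ({a e, b e} : Finset ℕ) = {c, wL} ∨ ({a e, b e} : Finset ℕ) = {c, wR} ∨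
      ({a e, b e} : Finset ℕ) = {wL, wR}) (he : e ∈ Z) : NodeOK m q lam kap a b c Z e := by
  rcases hZ e he with h | h | h
  · refine near_tri hlam hLR hL hR hkL hkR hq h fun e' he' hne => ?_
    rcases hZ e' he' with h' | h' | h'
    · exact absurd (hinj _ _ (h'.trans h.symm)) hne
    · exact Or.inl h'
    · exact Or.inr h'
  · refine near_tri hlam hLR.symm hR hL hkR hkL hq h fun e' he' hne => ?_
    rcases hZ e' he' with h' | h' | h'
    · exact Or.inl h'
    · exact absurd (hinj _ _ (h'.trans h.symm)) hne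
    · exact Or.inr (h'.trans (Finset.pair_comm _ _))
  · refine far_tri hlam hLR hL hR hkL hkR hq h fun e' he' hne => ?_
    rcases hZ e' he' with h' | h' | h'
    · exact Or.inl h'
    · exact Or.inr h'
    · exact absurd (hinj _ _ (h'.trans h.symm)) hne

end Spl3
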