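import Pool.Agent.Spl3.StepM
import Pool.Agent.Spl3.LocQuad
import Pool.Agent.Spl3.LocTri

/-!
# Project Spl3 (S-lemma, MP_92924b), module Main: the S-lemma

`S_onto`: for a family of quadruples `i < j < k < l < N` with nodes `{a, b}` such that every class
`k = c` (`2 ≤ c ≤ N - 2`) is one of the two local configurations `Cls`, there are heights `kap` such that the
rows `cdet` (with `η = kap ^ q`) are onto modulo the `m`-th powers of the ideals of the nodes, on the functions
`h` of degree at most `2 m`, if `2 m ≤ q`.  `lam` and `μ` are arbitrary injective functions.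
-/

namespace Spl3

open MvPolynomial

/-- The shape of the class `c`. -/
def Cls {E : Type*} (N : ℕ) (k a b : E → ℕ) (c : ℕ) : Prop :=
  ∃ wL wR zL zR : ℕ, wL ≠ wR ∧ wL < c ∧ wR < c ∧ c < zL ∧ c < zR ∧ zL < N ∧ zR < N ∧
    ((∀ e, k e = c → (({a e, b e} : Finset ℕ) = {c, wL} ∨ ({a e, b e} : Finset ℕ) = {c, wR} ∨
        ({a e, b e} : Finset ℕ) = {wL, zL} ∨ ({a e, b e} : Finset ℕ) = {wR, zR})) ∨
      (∀ e, k e = c → (({a e, b e} : Finset ℕ) = {c, wL} ∨ ({a e, b e} : Finset ℕ) = {c, wR} ∨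
        ({a e, b e} : Finset ℕ) = {wL, wR})))

variable {K : Type*} [Field K] {E : Type*} [Fintype E] {N m q : ℕ} {lam μ : ℕ → K}
  {i j k l a b : E → ℕ}

theorem S_ind [Infinite K] (hlam : Function.Injective lam) (hμ : Function.Injective μ)
    (hq : 0 < q) (hm : 2 * m ≤ q)
    (hQ : ∀ e, i e < j e ∧ j e < k e ∧ k e < l e ∧ l e < N) (hab : ∀ e, a e ≠ b e)
    (hinj : ∀ e e' : E, ({a e, b e} : Finset ℕ) = {a e', b e'} → e = e')
    (hcls : ∀ c, 2 ≤ c → c + 2 ≤ N → Cls N k a b c) (d : ℕ) (hd : d + 3 ≤ N) :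
    ∃ kap : ℕ → K, (∀ v ≤ N - 2 - d, kap v = 0) ∧ (∀ v, N - 2 - d < v → v < N → kap v ≠ 0) ∧
      Onto m q lam μ kap i j k l a b (N - 2 - d) := by
  classical
  induction d with
  | zero =>
    refine ⟨fun v => if v = N - 1 then 1 else 0, fun v hv => if_neg (by omega), fun v hv hv' => ?_,
      fun t => ⟨0, 0, fun _ => 0, by simp, by simp, by simp, fun e he => ?_⟩⟩
    · beta_reduce
      rw [if_pos (by omega)]; exact one_ne_zero
    · have := hQ e
      omega
  | succ d ih =>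
    obtain ⟨kap, h0, h1, hO⟩ := ih (by omega)
    obtain ⟨c, hc⟩ : ∃ c, c + 1 = N - 2 - d := ⟨N - 2 - d - 1, by omega⟩
    have hc' : N - 2 - (d + 1) = c := by omega
    rw [← hc] at h0 h1 hO
    rw [hc']
    have hloc : ∀ e, k e = c + 1 → NodeOK m q lam kap a b (c + 1) {e | k e = c + 1} e := by
      intro e he
      obtain ⟨wL, wR, zL, zR, hLR, hL, hR, hzL, hzR, hzL', hzR', h⟩ :=
        hcls (c + 1) (by omega) (by omega)
      rcases h with h | h
      · exact nodeOK_quad hlam hLR hL hR hzL hzR (h0 _ hL.le) (h0 _ hR.le) (h1 _ hzL hzL')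
          (h1 _ hzR hzR') hm hinj (fun e' he' => h e' he') he
      · exact nodeOK_tri hlam hLR hL hR (h0 _ hL.le) (h0 _ hR.le) hm hinj
          (fun e' he' => h e' he') he
    obtain ⟨z, hz, hO'⟩ := step hlam hμ hq h0
      (fun e => ⟨(hQ e).1, (hQ e).2.1, (hQ e).2.2.1⟩) hab
      (fun e he => h1 _ (by have := hQ e; omega) (by have := hQ e; omega)) hloc hO
    refine ⟨Function.update kap (c + 1) z, fun v hv => ?_, fun v hv hv' => ?_, hO'⟩
    · rw [Function.update_of_ne (by omega)]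
      exact h0 v (by omega)
    · by_cases hvc : v = c + 1
      · rw [hvc, Function.update_self]; exact hz
      · rw [Function.update_of_ne hvc]
        exact h1 v (by omega) hv'

/-- The S-lemma. -/
theorem S_onto [Infinite K] (hlam : Function.Injective lam) (hμ : Function.Injective μ)
    (hq : 0 < q) (hm : 2 * m ≤ q)
    (hQ : ∀ e, i e < j e ∧ j e < k e ∧ k e < l e ∧ l e < N) (hab : ∀ e, a e ≠ b e)
    (hinj : ∀ e e' : E, ({a e, b e} : Finset ℕ) = {a e', b e'} → e = e')
    (hcls : ∀ c, 2 ≤ c → c + 2 ≤ N → Cls N k a b c) :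
    ∃ kap : ℕ → K, kap 0 = 0 ∧ kap 1 = 0 ∧ (∀ v, 2 ≤ v → v < N → kap v ≠ 0) ∧
      ∀ t : E → MvPolynomial (Fin 2) K, ∃ h : ℕ → MvPolynomial (Fin 2) K,
        (∀ v, (h v).totalDegree ≤ 2 * m) ∧ ∀ e,
          cdet μ (fun v => kap v ^ q) (i e) (j e) (k e) (l e) h - t e ∈
            (nodeI lam kap (a e) (b e)) ^ m := by
  by_cases hN : N < 3
  · refine ⟨fun v => if v < 2 then 0 else 1, if_pos (by norm_num), if_pos (by norm_num),
      fun v hv _ => ?_, fun t => ⟨fun _ => 0, by simp, fun e => ?_⟩⟩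
    · beta_reduce
      rw [if_neg (by omega)]; exact one_ne_zero
    · have := hQ e
      omega
  · obtain ⟨kap, h0, h1, hO⟩ := S_ind hlam hμ hq hm hQ hab hinj hcls (N - 3) (by omega)
    have hN1 : N - 2 - (N - 3) = 1 := by omega
    rw [hN1] at h0 h1 hO
    refine ⟨kap, h0 0 (by omega), h0 1 le_rfl, fun v hv hv' => h1 v (by omega) hv', fun t => ?_⟩
    obtain ⟨A, B, h, hA, hB, hh, hrow⟩ := hO t
    refine ⟨fun v => if v ≤ 1 then A + C (μ v) * B else h v, fun v => ?_, fun e =>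
      hrow e (by have := hQ e; omega)⟩
    beta_reduce
    split_ifs
    · exact (totalDegree_add _ _).trans (max_le hA ((totalDegree_C_mul_le _ _).trans hB))
    · exact hh v

end Spl3

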