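import Pool.Agent.Spl2.SphBasic

/-!
# Every triangulated sphere has an orientation

`Sgn T sg`: a sign `sg u v w` for the triangles `{u, v, w}` of `T`, alternating in `u`, `v`, `w`, and opposite for the two
triangles of an edge.  `LeftOf T lf`: `lf u v` is the third vertex of the triangle to the left of the oriented edge `u v`.

Proof of the existence for `Sph T`.  Number the vertices.  The sorted orientations of the two triangles of an edge `e` disagree
unless `e` is in the set `C` of the edges such that the number of pairs `x < a`, `x` in `e`, `a` the third vertex of a triangle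
at `e`, is even.  The number of the edges of `C` at `v` is modulo `2`
`deg v + ∑_(t at v) (1 + number of the vertices of t larger than v) = 2 deg v + ∑_(u > v) 2`.
So `C` is a cycle, by `H1` it is the boundary of a set `D` of triangles, and we reverse the orientation of the triangles in `D`.
-/

set_option autoImplicit false

namespace Pool.Agent.Spl3

open Finset Pool.Agent.Spl1 Pool.Agent.Spl2

variable {V : Type*} [Fintype V] [DecidableEq V]

/-- orientations -/
structure Sgn (T : Finset (Finset V)) (sg : V → V → V → ℤ) : Prop where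
  pm : ∀ u v w, ({u, v, w} : Finset V) ∈ T → sg u v w = 1 ∨ sg u v w = -1
  swap : ∀ u v w, ({u, v, w} : Finset V) ∈ T → sg v u w = - sg u v w
  rot : ∀ u v w, ({u, v, w} : Finset V) ∈ T → sg v w u = sg u v w
  opp : ∀ u v a b, a ≠ b → ({u, v, a} : Finset V) ∈ T → ({u, v, b} : Finset V) ∈ T →
    sg u v a = - sg u v b

/-- `lf u v` is the third vertex of the triangle to the left of the oriented edge `u v` -/
structure LeftOf (T : Finset (Finset V)) (lf : V → V → V) : Prop where
  tri : ∀ u v, ({u, v} : Finset V) ∈ edges T → ({u, v, lf u v} : Finset V) ∈ T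
  ne : ∀ u v, ({u, v} : Finset V) ∈ edges T → lf u v ≠ lf v u
  rot : ∀ u v, ({u, v} : Finset V) ∈ edges T → lf v (lf u v) = u
  cov : ∀ u v w, ({u, v, w} : Finset V) ∈ T → w = lf u v ∨ w = lf v u

/-- `1` if `x` is smaller than `y` -/
private def lt1 (rk : V → ℕ) (x y : V) : ℕ := if rk x < rk y then 1 else 0

/-- `1` if `x` is smaller than `y`, `-1` otherwise -/
private def eps (rk : V → ℕ) (x y : V) : ℤ := if rk x < rk y then 1 else -1

omit [Fintype V] [DecidableEq V] in
private theorem lt1_add {rk : V → ℕ} (hrk : Function.Injective rk) {x y : V} (h : x ≠ y) :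
    lt1 rk x y + lt1 rk y x = 1 := by
  have h1 : rk x ≠ rk y := fun h2 => h (hrk h2)
  unfold lt1
  rcases lt_or_gt_of_ne h1 with h2 | h2
  · rw [if_pos h2, if_neg (by omega)]
  · rw [if_neg (by omega), if_pos h2]

/-- the number of the pairs `x < a`, `x` in `e`, `a` in `t` and not in `e` -/
private def nt (rk : V → ℕ) (e t : Finset V) : ℕ := ∑ x ∈ e, ∑ a ∈ t \ e, lt1 rk x a

omit [Fintype V] in
private theorem card3_ne {u v w : V} (h : ({u, v, w} : Finset V).card = 3) :
    u ≠ v ∧ v ≠ w ∧ u ≠ w := by
  refine ⟨?_, ?_, ?_⟩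
  · rintro rfl
    rw [Finset.insert_eq_of_mem (Finset.mem_insert_self _ _)] at h
    have := Finset.card_le_two (a := u) (b := w)
    omega
  · rintro rfl
    rw [Finset.insert_eq_of_mem (Finset.mem_singleton_self v)] at h
    have := Finset.card_le_two (a := u) (b := v)
    omega
  · rintro rfl
    rw [Finset.insert_eq_of_mem (by simp)] at h
    have := Finset.card_le_two (a := v) (b := u)
    omega

omit [Fintype V] in
private theorem nt_eq (rk : V → ℕ) {u v a : V} (huv : u ≠ v) (hva : v ≠ a) (hua : u ≠ a) :
    nt rk {u, v} {u, v, a} = lt1 rk u a + lt1 rk v a := by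
  have h1 : ({u, v, a} : Finset V) \ {u, v} = {a} := by
    ext x
    simp only [Finset.mem_sdiff, Finset.mem_insert, Finset.mem_singleton]
    constructor
    · rintro ⟨h1 | h1 | h1, h2⟩
      · exact absurd (Or.inl h1) h2
      · exact absurd (Or.inr h1) h2
      · exact h1
    · rintro rfl
      refine ⟨Or.inr (Or.inr rfl), ?_⟩
      rintro (h | h)
      · exact hua h.symm
      · exact hva h.symm
  unfold nt
  rw [h1, Finset.sum_pair huv, Finset.sum_singleton, Finset.sum_singleton]

/-- the edges where the sorted orientations agree -/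
private def CC (T : Finset (Finset V)) (rk : V → ℕ) : Finset (Finset V) :=
  (edges T).filter fun e => Even (∑ t ∈ T.filter fun t => e ⊆ t, nt rk e t)

private theorem swap_sum (T : Finset (Finset V)) (v : V) (f : V → Finset V → ℕ) :
    ∑ u ∈ nb (edges T) v, ∑ t ∈ T.filter (fun t => ({v, u} : Finset V) ⊆ t), f u t =
      ∑ t ∈ star T v, ∑ u ∈ t.erase v, f u t := by
  refine Finset.sum_comm' ?_
  intro u t
  rw [mem_nb, Finset.mem_filter, Finset.mem_erase, mem_star, Finset.insert_subset_iff,
    Finset.singleton_subset_iff]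
  constructor
  · rintro ⟨⟨h1, h2⟩, h3, h4, h5⟩
    exact ⟨⟨h1, h5⟩, h3, h4⟩
  · rintro ⟨⟨h1, h5⟩, h3, h4⟩
    exact ⟨⟨h1, edge_of_tri h3 h1.symm h4 h5⟩, h3, h4, h5⟩

private theorem edges_at (T : Finset (Finset V)) (v : V) (f : Finset V → ℕ) :
    ∑ e ∈ (edges T).filter (fun e => v ∈ e), f e = ∑ u ∈ nb (edges T) v, f {v, u} := by
  have h1 : (edges T).filter (fun e => v ∈ e) = (nb (edges T) v).image fun u => {v, u} := by
    ext e
    rw [Finset.mem_filter, Finset.mem_image]
    constructor
    · rintro ⟨he, hv⟩
      obtain ⟨x, y, hxy, rfl⟩ := Finset.card_eq_two.1 (mem_edges.1 he).1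
      rw [Finset.mem_insert, Finset.mem_singleton] at hv
      rcases hv with rfl | rfl
      · exact ⟨y, mem_nb.2 ⟨hxy.symm, he⟩, rfl⟩
      · exact ⟨x, mem_nb.2 ⟨hxy, edge_swap he⟩, Finset.pair_comm _ _⟩
    · rintro ⟨u, hu, rfl⟩
      exact ⟨(mem_nb.1 hu).2, by simp⟩
  rw [h1, Finset.sum_image]
  intro x hx y hy hxy
  have hx1 := (mem_nb.1 hx).1
  have h2 : x ∈ ({v, y} : Finset V) := by
    have h3 : ({v, x} : Finset V) = {v, y} := hxy
    rw [← h3]
    simp
  rw [Finset.mem_insert, Finset.mem_singleton] at h2
  exact h2.resolve_left hx1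

private theorem isCyc_CC {T : Finset (Finset V)} (h : Sph T) {rk : V → ℕ}
    (hrk : Function.Injective rk) : IsCyc (CC T rk) := by
  classical
  refine ⟨fun e he => (mem_edges.1 (Finset.mem_filter.1 he).1).1, fun v => ?_⟩
  have h1 : vdeg (CC T rk) v = (((edges T).filter (fun e => v ∈ e)).filter
      (fun e => Odd (1 + ∑ t ∈ T.filter fun t => e ⊆ t, nt rk e t))).card := by
    unfold vdeg CC
    rw [Finset.filter_filter, Finset.filter_filter]
    congr 1
    apply Finset.filter_congr
    intro e _
    have h2 : ∀ m : ℕ, Odd (1 + m) ↔ Even m := by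
      intro m
      rw [Nat.odd_iff, Nat.even_iff]
      omega
    rw [h2]
    exact and_comm
  rw [h1, ← Finset.even_sum_iff_even_card_odd, edges_at, Finset.sum_add_distrib,
    swap_sum T v (fun u t => nt rk {v, u} t)]
  have h3 : ∀ t ∈ star T v, ∑ u ∈ t.erase v, nt rk {v, u} t = 1 + ∑ u ∈ t.erase v, lt1 rk v u := by
    intro t ht
    rw [mem_star] at ht
    have h4 : (t.erase v).card = 2 := by
      rw [Finset.card_erase_of_mem ht.2, h.card3 t ht.1]
    obtain ⟨a, b, hab, h5⟩ := Finset.card_eq_two.1 h4
    have h6 : t = {v, a, b} := by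
      rw [← Finset.insert_erase ht.2, h5]
    have h7 : ({v, a, b} : Finset V).card = 3 := by
      rw [← h6]
      exact h.card3 t ht.1
    obtain ⟨hva, -, hvb⟩ := card3_ne h7
    rw [h5, Finset.sum_pair hab, Finset.sum_pair hab, h6, nt_eq rk hva hab hvb]
    have h8 : ({v, a, b} : Finset V) = {v, b, a} := by
      rw [Finset.pair_comm a b]
    rw [h8, nt_eq rk hvb hab.symm hva]
    have h9 := lt1_add hrk hab
    omega
  rw [Finset.sum_congr rfl h3, Finset.sum_add_distrib, ← swap_sum T v (fun u _ => lt1 rk v u)]
  have h10 : ∀ u ∈ nb (edges T) v, ∑ t ∈ T.filter (fun t => ({v, u} : Finset V) ⊆ t), lt1 rk v u =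
      2 * lt1 rk v u := by
    intro u hu
    have h11 := h.two _ (mem_nb.1 hu).2
    unfold tdeg at h11
    rw [Finset.sum_const, h11, smul_eq_mul]
  rw [Finset.sum_congr rfl h10, ← Finset.mul_sum, Finset.sum_const, Finset.sum_const,
    h.star_card v, smul_eq_mul, mul_one, ← add_assoc]
  exact Even.add ⟨_, rfl⟩ (even_two_mul _)

omit [Fintype V] [DecidableEq V] in
private theorem eps_swap {rk : V → ℕ} (hrk : Function.Injective rk) {x y : V} (h : x ≠ y) :
    eps rk y x = - eps rk x y := by
  have h1 : rk x ≠ rk y := fun h2 => h (hrk h2)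
  unfold eps
  rcases lt_or_gt_of_ne h1 with h2 | h2
  · rw [if_neg (by omega), if_pos h2]
  · rw [if_pos h2, if_neg (by omega)]
    rfl

omit [Fintype V] [DecidableEq V] in
private theorem eps_pm (rk : V → ℕ) (x y : V) : eps rk x y = 1 ∨ eps rk x y = -1 := by
  unfold eps
  split_ifs
  · exact Or.inl rfl
  · exact Or.inr rfl

private theorem sgn_case (p q r s t1 t2 : Prop) [Decidable p] [Decidable q] [Decidable r]
    [Decidable s] [Decidable t1] [Decidable t2]
    (h : Odd ((if t1 then 1 else 0) + (if t2 then 1 else 0) : ℕ) ↔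
      Even (((if p then 1 else 0) + (if q then 1 else 0)) +
        ((if r then 1 else 0) + (if s then 1 else 0)) : ℕ)) :
    (if t1 then (-1 : ℤ) else 1) * ((if q then (1 : ℤ) else -1) * (if p then (1 : ℤ) else -1)) =
      - ((if t2 then (-1 : ℤ) else 1) *
        ((if s then (1 : ℤ) else -1) * (if r then (1 : ℤ) else -1))) := by
  by_cases p <;> by_cases q <;> by_cases r <;> by_cases s <;> by_cases t1 <;> by_cases t2 <;>
    simp_all +decide

/-- every triangulated sphere has an orientation -/
theorem exists_sgn {T : Finset (Finset V)} (h : Sph T) : ∃ sg : V → V → V → ℤ, Sgn T sg := by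
  classical
  obtain ⟨rk, hrk⟩ : ∃ rk : V → ℕ, Function.Injective rk :=
    ⟨fun v => (Fintype.equivFin V v : ℕ), fun x y hxy =>
      (Fintype.equivFin V).injective (Fin.ext hxy)⟩
  obtain ⟨D, hD, hbd⟩ := h.H1 (CC T rk) (Finset.filter_subset _ _) (isCyc_CC h hrk)
  have hne : ∀ {u v w : V}, ({u, v, w} : Finset V) ∈ T → u ≠ v ∧ v ≠ w ∧ u ≠ w :=
    fun ht => card3_ne (h.card3 _ ht)
  refine ⟨fun u v w => (if ({u, v, w} : Finset V) ∈ D then -1 else 1) *
    (eps rk u v * (eps rk v w * eps rk u w)), ⟨?_, ?_, ?_, ?_⟩⟩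
  · intro u v w _
    rcases eps_pm rk u v with h1 | h1 <;> rcases eps_pm rk v w with h2 | h2 <;>
      rcases eps_pm rk u w with h3 | h3 <;> rw [h1, h2, h3] <;> split_ifs <;> simp
  · intro u v w ht
    obtain ⟨huv, hvw, huw⟩ := hne ht
    rw [Finset.insert_comm v u, eps_swap hrk huv]
    ring
  · intro u v w ht
    obtain ⟨huv, hvw, huw⟩ := hne ht
    have h1 : ({v, w, u} : Finset V) = {u, v, w} := by
      ext x
      simp only [Finset.mem_insert, Finset.mem_singleton]
      tauto
    rw [h1, eps_swap hrk huv, eps_swap hrk huw]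
    ring
  · intro u v a b hab ha hb
    obtain ⟨huv, hva, hua⟩ := hne ha
    obtain ⟨-, hvb, hub⟩ := hne hb
    have he : ({u, v} : Finset V) ∈ edges T := edge_of_tri ha huv (by simp) (by simp)
    have hne2 : ({u, v, a} : Finset V) ≠ {u, v, b} := by
      intro h1
      have h2 : a ∈ ({u, v, b} : Finset V) := by
        rw [← h1]
        simp
      simp only [Finset.mem_insert, Finset.mem_singleton] at h2
      rcases h2 with h2 | h2 | h2
      · exact hua h2.symm
      · exact hva h2.symm
      · exact hab h2
    have h1 : T.filter (fun t => ({u, v} : Finset V) ⊆ t) = {{u, v, a}, {u, v, b}} := by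
      symm
      apply Finset.eq_of_subset_of_card_le
      · intro x hx
        rw [Finset.mem_insert, Finset.mem_singleton] at hx
        rcases hx with rfl | rfl
        · exact Finset.mem_filter.2 ⟨ha, by
            intro y hy
            rw [Finset.mem_insert, Finset.mem_singleton] at hy
            rcases hy with rfl | rfl <;> simp⟩
        · exact Finset.mem_filter.2 ⟨hb, by
            intro y hy
            rw [Finset.mem_insert, Finset.mem_singleton] at hy
            rcases hy with rfl | rfl <;> simp⟩
      · rw [Finset.card_pair hne2]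
        exact (h.two _ he).le
    have h2 : ({u, v} : Finset V) ∈ CC T rk ↔
        Even ((lt1 rk u a + lt1 rk v a) + (lt1 rk u b + lt1 rk v b)) := by
      unfold CC
      rw [Finset.mem_filter, h1, Finset.sum_pair hne2, nt_eq rk huv hva hua, nt_eq rk huv hvb hub]
      exact and_iff_right he
    have h3 : ({u, v} : Finset V) ∈ bdry D ↔
        Odd ((if ({u, v, a} : Finset V) ∈ D then 1 else 0) +
          (if ({u, v, b} : Finset V) ∈ D then 1 else 0) : ℕ) := by
      rw [mem_bdry]
      have h4 : tdeg D {u, v} = (if ({u, v, a} : Finset V) ∈ D then 1 else 0) +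
          (if ({u, v, b} : Finset V) ∈ D then 1 else 0) := by
        unfold tdeg
        have h5 : D.filter (fun t => ({u, v} : Finset V) ⊆ t) =
            ({{u, v, a}, {u, v, b}} : Finset (Finset V)).filter (fun t => t ∈ D) := by
          rw [← h1]
          ext t
          simp only [Finset.mem_filter]
          constructor
          · rintro ⟨h6, h7⟩
            exact ⟨⟨hD h6, h7⟩, h6⟩
          · rintro ⟨⟨h6, h7⟩, h8⟩
            exact ⟨h8, h7⟩
        rw [h5, Finset.card_filter, Finset.sum_pair hne2]
      rw [h4]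
      exact and_iff_right (Finset.card_pair huv)
    rw [hbd, h2] at h3
    have h4 := sgn_case (rk u < rk a) (rk v < rk a) (rk u < rk b) (rk v < rk b)
      (({u, v, a} : Finset V) ∈ D) (({u, v, b} : Finset V) ∈ D) h3.symm
    unfold eps
    linear_combination (if rk u < rk v then (1 : ℤ) else -1) * h4

/-- every triangulated sphere has an orientation, in terms of left sides -/
theorem exists_left {T : Finset (Finset V)} (h : Sph T) : ∃ lf : V → V → V, LeftOf T lf := by
  classical
  obtain ⟨sg, hs⟩ := exists_sgn h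
  have key : ∀ u v, ∃ w, ({u, v} : Finset V) ∈ edges T → ({u, v, w} : Finset V) ∈ T ∧ sg u v w = 1 := by
    intro u v
    by_cases he : ({u, v} : Finset V) ∈ edges T
    · obtain ⟨w, w', h1, -, -, -, -, -, h7, h8, -⟩ := h.link_two he
      have h9 := hs.opp u v w w' h1 h7 h8
      rcases hs.pm u v w h7 with h10 | h10
      · exact ⟨w, fun _ => ⟨h7, h10⟩⟩
      · refine ⟨w', fun _ => ⟨h8, ?_⟩⟩
        rw [h10] at h9
        linarith
    · exact ⟨u, fun h1 => absurd h1 he⟩
  choose lf hlf using key
  have huniq : ∀ u v w, ({u, v, w} : Finset V) ∈ T → sg u v w = 1 → w = lf u v := by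
    intro u v w ht hw
    have hc := card3_ne (h.card3 _ ht)
    have he : ({u, v} : Finset V) ∈ edges T := edge_of_tri ht hc.1 (by simp) (by simp)
    by_contra hne
    have h1 := hs.opp u v w (lf u v) hne ht (hlf u v he).1
    rw [hw, (hlf u v he).2] at h1
    norm_num at h1
  refine ⟨lf, ⟨fun u v he => (hlf u v he).1, ?_, ?_, ?_⟩⟩
  · intro u v he h1
    have h2 := hlf u v he
    have h3 := hlf v u (edge_swap he)
    have h4 := hs.swap u v (lf u v) h2.1
    rw [h2.2, h1, h3.2] at h4
    norm_num at h4
  · intro u v he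
    have h2 := hlf u v he
    have h3 : ({v, lf u v, u} : Finset V) = {u, v, lf u v} := by
      ext x
      simp only [Finset.mem_insert, Finset.mem_singleton]
      tauto
    symm
    apply huniq
    · rw [h3]
      exact h2.1
    · rw [hs.rot u v _ h2.1]
      exact h2.2
  · intro u v w ht
    rcases hs.pm u v w ht with h1 | h1
    · exact Or.inl (huniq u v w ht h1)
    · right
      apply huniq
      · rw [Finset.insert_comm]
        exact ht
      · rw [hs.swap u v w ht, h1, neg_neg]

end Pool.Agent.Spl3
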