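import Pool.Agent.Spl3.Basic

/-!
# Project Spl3 (S-lemma, MP_92924b), module Step: from the rows of class `> c + 1` to the rows of class `> c`

The vertices `≤ c + 1` have height `0`.  The vertex `c + 1` gets the height `ε`.  The new unknown is
`h (c + 1) = A + μ B + ε^q g`, where `g = ∑ ε^(- w) cc f` is a combination of the polynomials of the local data.
The rows of class `c + 1` are multiples of `g - (h l - A - μ B) / η l`.  At `ε = 0` the system is block
triangular, so it is onto (module `Spec`).
-/

namespace Spl3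

open MvPolynomial

section row

variable {K : Type*} [Field K] {E : Type*} [Fintype E] (m q : ℕ) (μ kap : ℕ → K)
  (i j k l : E → ℕ) (c : ℕ) (s : E → ℕ) (x y : E → MvPolynomial (Fin 2) K)
  (f W : E → ℕ → ℕ → MvPolynomial (Fin 2) (Polynomial K)) (w : E → ℕ → ℕ → ℕ)

/-- `ε ^ q g`. -/
noncomputable def Gq (cc : E → ℕ → ℕ → Polynomial K) : MvPolynomial (Fin 2) (Polynomial K) :=
  ∑ e : E, if k e = c + 1 then ∑ r ∈ Finset.range m, ∑ n ∈ Finset.range (r + 1),
    C (cc e n (r - n) * Polynomial.X ^ (q - w e n (r - n))) * f e n (r - n) else 0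

/-- The function `h` over `K[ε]`. -/
noncomputable def hE (A B : MvPolynomial (Fin 2) (Polynomial K))
    (h : ℕ → MvPolynomial (Fin 2) (Polynomial K)) (cc : E → ℕ → ℕ → Polynomial K) (v : ℕ) :
    MvPolynomial (Fin 2) (Polynomial K) :=
  if v ≤ c then A + C (Polynomial.C (μ v)) * B
  else if v = c + 1 then A + C (Polynomial.C (μ v)) * B + Gq m q k c f w cc else h v

/-- The heights over `K[ε]`. -/
noncomputable def kE (v : ℕ) : Polynomial K := if v = c + 1 then Polynomial.X else Polynomial.C (kap v)

/-- The own part of the row `e`. -/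
noncomputable def own (cc : E → ℕ → ℕ → Polynomial K) (e : E) :
    MvPolynomial (Fin 2) (Polynomial K) :=
  ∑ r ∈ Finset.range m, ∑ n ∈ Finset.range (r + 1),
    C (cc e n (r - n)) * (Cm (x e) ^ n * Cm (y e) ^ (r - n) * W e n (r - n))

/-- `(h l - A - μ B) / η l`. -/
noncomputable def Cl (A B : MvPolynomial (Fin 2) (Polynomial K))
    (h : ℕ → MvPolynomial (Fin 2) (Polynomial K)) (e : E) : MvPolynomial (Fin 2) (Polynomial K) :=
  C (Polynomial.C ((kap (l e) ^ q)⁻¹)) * (h (l e) - A - C (Polynomial.C (μ (l e))) * B)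

/-- The rows. -/
noncomputable def row (A B : MvPolynomial (Fin 2) (Polynomial K))
    (h : ℕ → MvPolynomial (Fin 2) (Polynomial K)) (cc : E → ℕ → ℕ → Polynomial K) (e : E) :
    MvPolynomial (Fin 2) (Polynomial K) :=
  if k e = c + 1 then own m x y W cc e - scl (s e) (Cl q μ kap l A B h e)
  else cdet (fun v => Polynomial.C (μ v)) (fun v => kE kap c v ^ q) (i e) (j e) (k e) (l e)
    (hE m q μ k c f w A B h cc)

theorem Gq_lin (cc cc' : E → ℕ → ℕ → Polynomial K) (r : Polynomial K) :
    Gq m q k c f w (cc + r • cc') = Gq m q k c f w cc + C r * Gq m q k c f w cc' := by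
  unfold Gq
  rw [Finset.mul_sum, ← Finset.sum_add_distrib]
  refine Finset.sum_congr rfl fun e _ => ?_
  split_ifs
  · rw [Finset.mul_sum, ← Finset.sum_add_distrib]
    refine Finset.sum_congr rfl fun t _ => ?_
    rw [Finset.mul_sum, ← Finset.sum_add_distrib]
    refine Finset.sum_congr rfl fun n _ => ?_
    simp only [Pi.add_apply, Pi.smul_apply, smul_eq_mul, C_mul, C_add]
    ring
  · simp

omit [Fintype E] in
theorem own_lin (cc cc' : E → ℕ → ℕ → Polynomial K) (r : Polynomial K) (e : E) :
    own m x y W (cc + r • cc') e = own m x y W cc e + C r * own m x y W cc' e := by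
  unfold own
  rw [Finset.mul_sum, ← Finset.sum_add_distrib]
  refine Finset.sum_congr rfl fun t _ => ?_
  rw [Finset.mul_sum, ← Finset.sum_add_distrib]
  refine Finset.sum_congr rfl fun n _ => ?_
  simp only [Pi.add_apply, Pi.smul_apply, smul_eq_mul, C_mul, C_add]
  ring

theorem scl_C_mul (s : ℕ) (r : Polynomial K) (P : MvPolynomial (Fin 2) (Polynomial K)) :
    scl s (C r * P) = C r * scl s P := by
  rw [map_mul, ← MvPolynomial.algebraMap_eq, AlgHom.commutes]

theorem row_lin (A B A' B' : MvPolynomial (Fin 2) (Polynomial K))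
    (h h' : ℕ → MvPolynomial (Fin 2) (Polynomial K)) (cc cc' : E → ℕ → ℕ → Polynomial K)
    (r : Polynomial K) (e : E) :
    row m q μ kap i j k l c s x y f W w (A + C r * A') (B + C r * B') (fun v => h v + C r * h' v)
      (cc + r • cc') e =
    row m q μ kap i j k l c s x y f W w A B h cc e +
      C r * row m q μ kap i j k l c s x y f W w A' B' h' cc' e := by
  unfold row
  split_ifs
  · have h1 : Cl q μ kap l (A + C r * A') (B + C r * B') (fun v => h v + C r * h' v) e =
        Cl q μ kap l A B h e + C r * Cl q μ kap l A' B' h' e := by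
      unfold Cl
      ring
    rw [h1, own_lin, map_add, scl_C_mul]
    ring
  · rw [← cdet_mul, ← cdet_add]
    congr 1
    funext v
    unfold hE
    split_ifs
    · ring
    · rw [Gq_lin]; ring
    · ring

theorem row_zero (e : E) : row m q μ kap i j k l c s x y f W w 0 0 (fun _ => 0) 0 e = 0 := by
  have := row_lin m q μ kap i j k l c s x y f W w 0 0 0 0 (fun _ => 0) (fun _ => 0) 0 0 (-1) e
  simp only [mul_zero, add_zero, smul_zero, C_neg, C_1] at this
  linear_combination this

variable {m q μ kap i j k l c s x y f W w} in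
theorem row_of_eq {A B : MvPolynomial (Fin 2) (Polynomial K)}
    {h : ℕ → MvPolynomial (Fin 2) (Polynomial K)} {cc : E → ℕ → ℕ → Polynomial K} {e : E}
    (hk : k e = c + 1) : row m q μ kap i j k l c s x y f W w A B h cc e =
      own m x y W cc e - scl (s e) (Cl q μ kap l A B h e) := if_pos hk

variable {m q μ kap i j k l c s x y f W w} in
theorem row_of_ne {A B : MvPolynomial (Fin 2) (Polynomial K)}
    {h : ℕ → MvPolynomial (Fin 2) (Polynomial K)} {cc : E → ℕ → ℕ → Polynomial K} {e : E}
    (hk : ¬ k e = c + 1) : row m q μ kap i j k l c s x y f W w A B h cc e =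
      cdet (fun v => Polynomial.C (μ v)) (fun v => kE kap c v ^ q) (i e) (j e) (k e) (l e)
        (hE m q μ k c f w A B h cc) := if_neg hk

/-- The attainable rows. -/
noncomputable def Att : Submodule (Polynomial K)
    ({e : E // c < k e} → MvPolynomial (Fin 2) (Polynomial K)) where
  carrier := {T | ∃ (A B : MvPolynomial (Fin 2) (Polynomial K))
    (h : ℕ → MvPolynomial (Fin 2) (Polynomial K)) (cc : E → ℕ → ℕ → Polynomial K),
    A.totalDegree ≤ 2 * m ∧ B.totalDegree ≤ 2 * m ∧ (∀ v, (h v).totalDegree ≤ 2 * m) ∧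
    ∀ e, T e = row m q μ kap i j k l c s x y f W w A B h cc e.1}
  zero_mem' := by
    exact ⟨0, 0, fun _ => 0, 0, by simp, by simp, by simp, fun e =>
      (row_zero m q μ kap i j k l c s x y f W w e.1).symm⟩
  add_mem' := by
    rintro T T' ⟨A, B, h, cc, h1, h2, h3, h4⟩ ⟨A', B', h', cc', h1', h2', h3', h4'⟩
    refine ⟨A + C 1 * A', B + C 1 * B', fun v => h v + C 1 * h' v, cc + (1 : Polynomial K) • cc',
      (totalDegree_add _ _).trans (max_le h1 ((totalDegree_C_mul_le _ _).trans h1')),
      (totalDegree_add _ _).trans (max_le h2 ((totalDegree_C_mul_le _ _).trans h2')),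
      fun v => (totalDegree_add _ _).trans (max_le (h3 v) ((totalDegree_C_mul_le _ _).trans (h3' v))),
      fun e => ?_⟩
    rw [row_lin, ← h4, ← h4', Pi.add_apply, C_1, one_mul]
  smul_mem' := by
    rintro r T ⟨A, B, h, cc, h1, h2, h3, h4⟩
    refine ⟨0 + C r * A, 0 + C r * B, fun v => 0 + C r * h v, 0 + r • cc, ?_, ?_, fun v => ?_,
      fun e => ?_⟩
    · rw [zero_add]; exact (totalDegree_C_mul_le _ _).trans h1
    · rw [zero_add]; exact (totalDegree_C_mul_le _ _).trans h2
    · beta_reduce
      rw [zero_add]; exact (totalDegree_C_mul_le _ _).trans (h3 v)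
    · rw [row_lin, row_zero, zero_add, ← h4, Pi.smul_apply, Algebra.smul_def]
      rfl

end row

end Spl3
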