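import Pool.Agent.Spl3.Step

/-!
# Project Spl3 (S-lemma, MP_92924b), module StepA: the ideals of the rows, evaluation at `ε = z`
-/

namespace Spl3

open MvPolynomial

variable {K : Type*} [Field K] {E : Type*} {m q : ℕ} {lam μ kap : ℕ → K}
  {i j k l a b : E → ℕ} {c : ℕ} {s : E → ℕ} {x y : E → MvPolynomial (Fin 2) K}
  {f W : E → ℕ → ℕ → MvPolynomial (Fin 2) (Polynomial K)} {w : E → ℕ → ℕ → ℕ}

/-- The ideals of the rows. -/
noncomputable def rowI (m : ℕ) (lam kap : ℕ → K) (k a b : E → ℕ) (c : ℕ)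
    (x y : E → MvPolynomial (Fin 2) K) (e : E) : Ideal (MvPolynomial (Fin 2) (Polynomial K)) :=
  if k e = c + 1 then (Ideal.span {Cm (x e), Cm (y e)}) ^ m
  else (nodeI (fun v => Polynomial.C (lam v)) (kE kap c) (a e) (b e)) ^ m

theorem rowI_of_eq {e : E} (h : k e = c + 1) :
    rowI m lam kap k a b c x y e = (Ideal.span {Cm (x e), Cm (y e)}) ^ m := if_pos h

theorem rowI_of_ne {e : E} (h : ¬ k e = c + 1) :
    rowI m lam kap k a b c x y e =
      (nodeI (fun v => Polynomial.C (lam v)) (kE kap c) (a e) (b e)) ^ m := if_neg h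

theorem kE_eval (z : K) (v : ℕ) : (kE kap c v).eval z = Function.update kap (c + 1) z v := by
  unfold kE
  by_cases h : v = c + 1
  · rw [if_pos h, h, Function.update_self, Polynomial.eval_X]
  · rw [if_neg h, Function.update_of_ne h, Polynomial.eval_C]

theorem map_span_pair {R S : Type*} [CommRing R] [CommRing S] (φ : R →+* S) (u v : R) :
    (Ideal.span {u, v}).map φ = Ideal.span {φ u, φ v} := by
  rw [Ideal.map_span, Set.image_pair]

theorem map_nodeI (z : K) (u v : ℕ) :
    (nodeI (fun v => Polynomial.C (lam v)) (kE kap c) u v).map (ev z) =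
      nodeI lam (Function.update kap (c + 1) z) u v := by
  unfold nodeI
  rw [map_span_pair, ev_ln, ev_ln, kE_eval, kE_eval, Polynomial.eval_C, Polynomial.eval_C]

theorem map_rowI_of_eq (z : K) {e : E} (h : k e = c + 1) :
    (rowI m lam kap k a b c x y e).map (ev z) = (Ideal.span {x e, y e}) ^ m := by
  rw [rowI_of_eq h, Ideal.map_pow, map_span_pair, ev_Cm, ev_Cm]

theorem map_rowI_of_ne (z : K) {e : E} (h : ¬ k e = c + 1) :
    (rowI m lam kap k a b c x y e).map (ev z) =
      (nodeI lam (Function.update kap (c + 1) z) (a e) (b e)) ^ m := by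
  rw [rowI_of_ne h, Ideal.map_pow, map_nodeI]

theorem ev_own (z : K) (cc : E → ℕ → ℕ → Polynomial K) (e : E) :
    ev z (own m x y W cc e) = ∑ r ∈ Finset.range m, ∑ n ∈ Finset.range (r + 1),
      C ((cc e n (r - n)).eval z) * (x e ^ n * y e ^ (r - n) * ev z (W e n (r - n))) := by
  unfold own
  rw [map_sum]
  refine Finset.sum_congr rfl fun r _ => ?_
  rw [map_sum]
  refine Finset.sum_congr rfl fun n _ => ?_
  rw [map_mul, map_mul, map_mul, map_pow, map_pow, ev_C, ev_Cm, ev_Cm]

theorem ev_Gq [Fintype E] (z : K) (cc : E → ℕ → ℕ → Polynomial K) :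
    ev z (Gq m q k c f w cc) = ∑ e : E, if k e = c + 1 then
      ∑ r ∈ Finset.range m, ∑ n ∈ Finset.range (r + 1),
        C ((cc e n (r - n)).eval z * z ^ (q - w e n (r - n))) * ev z (f e n (r - n)) else 0 := by
  unfold Gq
  rw [map_sum]
  refine Finset.sum_congr rfl fun e _ => ?_
  split_ifs
  · rw [map_sum]
    refine Finset.sum_congr rfl fun r _ => ?_
    rw [map_sum]
    refine Finset.sum_congr rfl fun n _ => ?_
    rw [map_mul, ev_C, Polynomial.eval_mul, Polynomial.eval_pow, Polynomial.eval_X]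
  · exact map_zero _

theorem fin_span_Cm {x y : MvPolynomial (Fin 2) K} (m : ℕ)
    (hconst : ∀ P : MvPolynomial (Fin 2) K, ∃ z : K, P - C z ∈ Ideal.span {x, y}) :
    Module.Finite (Polynomial K) (MvPolynomial (Fin 2) (Polynomial K) ⧸
      (Ideal.span {Cm x, Cm y}) ^ m) := by
  refine finite_quot m ?_
  obtain ⟨p0, hp0⟩ := hconst (X 0)
  obtain ⟨p1, hp1⟩ := hconst (X 1)
  have hC : ∀ P : MvPolynomial (Fin 2) K, P ∈ Ideal.span {x, y} →
      Cm P ∈ Ideal.span {Cm x, Cm y} := by
    intro P hP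
    rw [← map_span_pair Cm]
    exact Ideal.mem_map_of_mem _ hP
  intro P
  refine ⟨eval ![Polynomial.C p0, Polynomial.C p1] P, sub_C_mem ?_ P⟩
  intro n
  fin_cases n
  · have := hC _ hp0
    rw [map_sub, Cm_X, Cm_C] at this
    exact this
  · have := hC _ hp1
    rw [map_sub, Cm_X, Cm_C] at this
    exact this

theorem fin_nodeI (m : ℕ) (hlam : Function.Injective lam) (κ : ℕ → Polynomial K) {u v : ℕ}
    (huv : u ≠ v) :
    Module.Finite (Polynomial K) (MvPolynomial (Fin 2) (Polynomial K) ⧸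
      (nodeI (fun v => Polynomial.C (lam v)) κ u v) ^ m) := by
  refine finite_quot m ?_
  intro P
  have hne : lam u - lam v ≠ 0 := sub_ne_zero.2 fun h' => huv (hlam h')
  have hu : IsUnit (Polynomial.C (lam u) - Polynomial.C (lam v)) := by
    rw [← Polynomial.C_sub]
    exact Polynomial.isUnit_C.2 (IsUnit.mk0 _ hne)
  exact node_const (u := hu.unit) hu.unit_spec P

theorem fin_rowI (hlam : Function.Injective lam) (hab : ∀ e, a e ≠ b e)
    (hconst : ∀ e, k e = c + 1 → ∀ P : MvPolynomial (Fin 2) K, ∃ z : K,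
      P - C z ∈ Ideal.span {x e, y e}) (e : E) :
    Module.Finite (Polynomial K) (MvPolynomial (Fin 2) (Polynomial K) ⧸
      rowI m lam kap k a b c x y e) := by
  by_cases h : k e = c + 1
  · rw [rowI_of_eq h]
    exact fin_span_Cm m (hconst e h)
  · rw [rowI_of_ne h]
    exact fin_nodeI m hlam _ (hab e)

end Spl3
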