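import Pool.Agent.Spl3.StepA

/-!
# Project Spl3 (S-lemma, MP_92924b), module StepB: the rows at `ε = z` and at `ε = 0`
-/

namespace Spl3

open MvPolynomial

variable {K : Type*} [Field K] {E : Type*} [Fintype E] {m q : ℕ} {lam μ kap : ℕ → K}
  {i j k l a b : E → ℕ} {c : ℕ} {s : E → ℕ} {x y : E → MvPolynomial (Fin 2) K}
  {f W : E → ℕ → ℕ → MvPolynomial (Fin 2) (Polynomial K)} {w : E → ℕ → ℕ → ℕ}
  {A B : MvPolynomial (Fin 2) (Polynomial K)}
  {h : ℕ → MvPolynomial (Fin 2) (Polynomial K)} {cc : E → ℕ → ℕ → Polynomial K}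

theorem ev_row_of_eq (z : K) {e : E} (hk : k e = c + 1) :
    ev z (row m q μ kap i j k l c s x y f W w A B h cc e) =
      (∑ r ∈ Finset.range m, ∑ n ∈ Finset.range (r + 1),
        C ((cc e n (r - n)).eval z) * (x e ^ n * y e ^ (r - n) * ev z (W e n (r - n)))) -
      scK (z ^ s e) (ev z (Cl q μ kap l A B h e)) := by
  rw [row_of_eq hk, map_sub, ev_own, ev_scl]

theorem ev_row_of_ne (z : K) {e : E} (hk : ¬ k e = c + 1) :
    ev z (row m q μ kap i j k l c s x y f W w A B h cc e) =
      cdet μ (fun v => Function.update kap (c + 1) z v ^ q) (i e) (j e) (k e) (l e)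
        (fun v => ev z (hE m q μ k c f w A B h cc v)) := by
  rw [row_of_ne hk, cdet_ev]
  have h1 : (fun v => Polynomial.eval z (Polynomial.C (μ v))) = μ := by
    funext v; exact Polynomial.eval_C
  have h2 : (fun v => Polynomial.eval z (kE kap c v ^ q)) =
      fun v => Function.update kap (c + 1) z v ^ q := by
    funext v
    rw [Polynomial.eval_pow, kE_eval]
  rw [h1, h2]

theorem ev_hE (z : K) (v : ℕ) : ev z (hE m q μ k c f w A B h cc v) =
    if v ≤ c then ev z A + C (μ v) * ev z B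
    else if v = c + 1 then ev z A + C (μ v) * ev z B + ev z (Gq m q k c f w cc) else ev z (h v) := by
  unfold hE
  split_ifs
  · rw [map_add, map_mul, ev_C, Polynomial.eval_C]
  · rw [map_add, map_add, map_mul, ev_C, Polynomial.eval_C]
  · rfl

theorem ev_Gq_zero (hwlt : ∀ e, k e = c + 1 → ∀ α β, α + β < m → w e α β < q) :
    ev 0 (Gq m q k c f w cc) = 0 := by
  rw [ev_Gq]
  refine Finset.sum_eq_zero fun e _ => ?_
  split_ifs with hk'
  · refine Finset.sum_eq_zero fun r hr => Finset.sum_eq_zero fun n hn => ?_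
    have hr' := Finset.mem_range.1 hr
    have hn' := Finset.mem_range.1 hn
    have := hwlt e hk' n (r - n) (by omega)
    rw [zero_pow (by omega), mul_zero, C_0, zero_mul]
  · rfl

theorem own_exists {x y : MvPolynomial (Fin 2) K}
    {W : ℕ → ℕ → MvPolynomial (Fin 2) (Polynomial K)}
    (hconst : ∀ P : MvPolynomial (Fin 2) K, ∃ z : K, P - C z ∈ Ideal.span {x, y})
    (hunit : ∀ α β, α + β < m → ∃ u : K, u ≠ 0 ∧ ev 0 (W α β) - C u ∈ Ideal.span {x, y})
    (P : MvPolynomial (Fin 2) K) : ∃ cc : ℕ → ℕ → K,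
      P - ∑ r ∈ Finset.range m, ∑ n ∈ Finset.range (r + 1),
          C (cc n (r - n)) * (x ^ n * y ^ (r - n) * ev 0 (W n (r - n))) ∈
            (Ideal.span {x, y}) ^ m := by
  obtain ⟨cc, hcc⟩ := span_node (A := K) (a := x) (b := y) (m := m)
    (fun α β => ev 0 (W α β)) (fun P => by simpa [MvPolynomial.algebraMap_eq] using hconst P)
    (fun α β hαβ => by
      obtain ⟨u, hu0, hu⟩ := hunit α β hαβ
      exact ⟨Units.mk0 u hu0, by simpa [MvPolynomial.algebraMap_eq] using hu⟩) P
  exact ⟨cc, by simpa [MvPolynomial.algebraMap_eq] using hcc⟩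

/-- At `ε = 0` the rows are onto. -/
theorem residue (hkap : ∀ v ≤ c + 1, kap v = 0)
    (hdat : ∀ e, k e = c + 1 → NodeD m q lam kap a b (c + 1) {e | k e = c + 1} e (s e) (x e) (y e)
      (f e) (W e) (w e))
    (H : Onto m q lam μ kap i j k l a b (c + 1))
    (T : {e : E // c < k e} → MvPolynomial (Fin 2) (Polynomial K)) :
    ∃ T' ∈ Att m q μ kap i j k l c s x y f W w, ∀ e, T' e - T e ∈ rowI m lam kap k a b c x y e.1 ⊔
      Ideal.span {algebraMap (Polynomial K) (MvPolynomial (Fin 2) (Polynomial K)) Polynomial.X} := by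
  classical
  have hupd : Function.update kap (c + 1) 0 = kap := by
    rw [← hkap (c + 1) le_rfl, Function.update_eq_self]
  obtain ⟨A, B, h, hA, hB, hh, hrow⟩ := H fun e => if hc : c < k e then ev 0 (T ⟨e, hc⟩) else 0
  -- the coefficients of the own parts
  have hcc : ∀ e, ∃ cc : ℕ → ℕ → K, k e = c + 1 → ∀ hc : c < k e,
      (ev 0 (T ⟨e, hc⟩) + scK (0 ^ s e) (ev 0 (Cl q μ kap l (Cm A) (Cm B) (fun v => Cm (h v)) e))) -
        ∑ r ∈ Finset.range m, ∑ n ∈ Finset.range (r + 1),
          C (cc n (r - n)) * (x e ^ n * y e ^ (r - n) * ev 0 (W e n (r - n))) ∈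
            (Ideal.span {x e, y e}) ^ m := by
    intro e
    by_cases hk : k e = c + 1
    · obtain ⟨cc, hcc⟩ := own_exists (hdat e hk).const (hdat e hk).unit
        (ev 0 (T ⟨e, by omega⟩) +
          scK (0 ^ s e) (ev 0 (Cl q μ kap l (Cm A) (Cm B) (fun v => Cm (h v)) e)))
      exact ⟨cc, fun _ _ => hcc⟩
    · exact ⟨fun _ _ => 0, fun h' => absurd h' hk⟩
  choose cc hcc using hcc
  refine ⟨fun e => row m q μ kap i j k l c s x y f W w (Cm A) (Cm B) (fun v => Cm (h v))
    (fun e n r => Polynomial.C (cc e n r)) e.1, ⟨Cm A, Cm B, fun v => Cm (h v),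
      fun e n r => Polynomial.C (cc e n r), (totalDegree_Cm_le A).trans hA,
      (totalDegree_Cm_le B).trans hB, fun v => (totalDegree_Cm_le _).trans (hh v),
      fun e => rfl⟩, fun e => ?_⟩
  refine lift_mem ?_
  obtain ⟨e, hce⟩ := e
  by_cases hk : k e = c + 1
  · rw [map_rowI_of_eq 0 hk, map_sub, ev_row_of_eq 0 hk]
    have h1 := (Ideal.neg_mem_iff _).2 (hcc e hk hce)
    simp only [Polynomial.eval_C]
    rw [neg_sub, ← sub_sub, sub_right_comm] at h1
    exact h1
  · rw [map_rowI_of_ne 0 hk, map_sub, ev_row_of_ne 0 hk, hupd]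
    have h1 := hrow e (by omega)
    rw [dif_pos hce] at h1
    have h2 : (fun v => ev 0 (hE m q μ k c f w (Cm A) (Cm B) (fun v => Cm (h v))
        (fun e n r => Polynomial.C (cc e n r)) v)) =
        fun v => if v ≤ c + 1 then A + C (μ v) * B else h v := by
      funext v
      rw [ev_hE, ev_Cm, ev_Cm, ev_Cm, ev_Gq_zero fun e he => (hdat e he).wlt, add_zero]
      by_cases hv : v ≤ c
      · rw [if_pos hv, if_pos (by omega)]
      · rw [if_neg hv]
        by_cases hv' : v = c + 1
        · rw [if_pos hv', if_pos (by omega)]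
        · rw [if_neg hv', if_neg (by omega)]
    rw [h2]
    exact h1

end Spl3
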