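import Pool.Agent.Spl3.StepB

/-!
# Project Spl3 (S-lemma, MP_92924b), module StepC: the polynomial `g` at `ε = z`
-/

namespace Spl3

open MvPolynomial

variable {K : Type*} [Field K] {E : Type*} {m q : ℕ} {lam μ kap : ℕ → K}
  {i j k l a b : E → ℕ} {c : ℕ} {s : E → ℕ} {x y : E → MvPolynomial (Fin 2) K}
  {f W : E → ℕ → ℕ → MvPolynomial (Fin 2) (Polynomial K)} {w : E → ℕ → ℕ → ℕ}

/-- The own part of `g` at `ε = z`, multiplied by `r`. -/
noncomputable def gP (m : ℕ) (f : E → ℕ → ℕ → MvPolynomial (Fin 2) (Polynomial K))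
    (w : E → ℕ → ℕ → ℕ) (r z : K) (cc : E → ℕ → ℕ → Polynomial K) (e : E) :
    MvPolynomial (Fin 2) K :=
  ∑ t ∈ Finset.range m, ∑ n ∈ Finset.range (t + 1),
    C (r * (cc e n (t - n)).eval z * (z ^ w e n (t - n))⁻¹) * ev z (f e n (t - n))

/-- `g` at `ε = z`, multiplied by `r`. -/
noncomputable def gA [Fintype E] (m : ℕ) (k : E → ℕ) (c : ℕ)
    (f : E → ℕ → ℕ → MvPolynomial (Fin 2) (Polynomial K))
    (w : E → ℕ → ℕ → ℕ) (r z : K) (cc : E → ℕ → ℕ → Polynomial K) : MvPolynomial (Fin 2) K :=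
  ∑ e : E, if k e = c + 1 then gP m f w r z cc e else 0

theorem Gq_eq [Fintype E] {r z : K} (hz : z ≠ 0) (cc : E → ℕ → ℕ → Polynomial K)
    (hwlt : ∀ e, k e = c + 1 → ∀ α β, α + β < m → w e α β < q) :
    C r * ev z (Gq m q k c f w cc) = C (z ^ q) * gA m k c f w r z cc := by
  rw [ev_Gq, gA, Finset.mul_sum, Finset.mul_sum]
  refine Finset.sum_congr rfl fun e _ => ?_
  split_ifs with hk
  · rw [gP, Finset.mul_sum, Finset.mul_sum]
    refine Finset.sum_congr rfl fun t ht => ?_
    rw [Finset.mul_sum, Finset.mul_sum]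
    refine Finset.sum_congr rfl fun n hn => ?_
    have ht' := Finset.mem_range.1 ht
    have hn' := Finset.mem_range.1 hn
    have hw := hwlt e hk n (t - n) (by omega)
    rw [← mul_assoc, ← mul_assoc, ← C_mul, ← C_mul]
    have h1 : z ^ q = z ^ (q - w e n (t - n)) * z ^ w e n (t - n) := by
      rw [← pow_add]; congr 1; omega
    have h2 : z ^ w e n (t - n) ≠ 0 := pow_ne_zero _ hz
    have h3 : r * ((cc e n (t - n)).eval z * z ^ (q - w e n (t - n))) =
        z ^ q * (r * (cc e n (t - n)).eval z * (z ^ w e n (t - n))⁻¹) := by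
      rw [h1]
      field_simp
    rw [h3]
  · rw [mul_zero, mul_zero]

theorem gP_deg {r z : K} (cc : E → ℕ → ℕ → Polynomial K) {e : E}
    (hdeg : ∀ α β, α + β < m → (f e α β).totalDegree ≤ 2 * m) :
    (gP m f w r z cc e).totalDegree ≤ 2 * m := by
  unfold gP
  refine totalDegree_finsetSum_le fun t ht => totalDegree_finsetSum_le fun n hn => ?_
  have ht' := Finset.mem_range.1 ht
  have hn' := Finset.mem_range.1 hn
  exact (totalDegree_C_mul_le _ _).trans ((totalDegree_ev_le _ _).trans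
    (hdeg n (t - n) (by omega)))

theorem gA_deg [Fintype E] {r z : K} (cc : E → ℕ → ℕ → Polynomial K)
    (hdeg : ∀ e, k e = c + 1 → ∀ α β, α + β < m → (f e α β).totalDegree ≤ 2 * m) :
    (gA m k c f w r z cc).totalDegree ≤ 2 * m := by
  unfold gA
  refine totalDegree_finsetSum_le fun e _ => ?_
  split_ifs with hk
  · exact gP_deg cc (hdeg e hk)
  · simp

theorem gA_sub [Fintype E] {r z : K} (cc : E → ℕ → ℕ → Polynomial K) {e : E} (hk : k e = c + 1)
    {I : Ideal (MvPolynomial (Fin 2) K)}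
    (hcross : ∀ e', k e' = c + 1 → e ≠ e' → ∀ α β, α + β < m → ev z (f e' α β) ∈ I) :
    gA m k c f w r z cc - gP m f w r z cc e ∈ I := by
  classical
  unfold gA
  rw [← Finset.add_sum_erase _ _ (Finset.mem_univ e), if_pos hk, add_sub_cancel_left]
  refine Ideal.sum_mem _ fun e' he' => ?_
  have hne' := (Finset.mem_erase.1 he').1
  split_ifs with hk'
  · unfold gP
    refine Ideal.sum_mem _ fun t ht => Ideal.sum_mem _ fun n hn => Ideal.mul_mem_left _ _ ?_
    have ht' := Finset.mem_range.1 ht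
    have hn' := Finset.mem_range.1 hn
    exact hcross e' hk' hne'.symm n (t - n) (by omega)
  · exact Ideal.zero_mem _

theorem scK_C (z u : K) : scK z (C u : MvPolynomial (Fin 2) K) = C u := by
  rw [← MvPolynomial.algebraMap_eq, AlgHom.commutes]

theorem scK_gP {r z : K} (hz : z ≠ 0) (cc : E → ℕ → ℕ → Polynomial K) {e : E}
    (hscl : ∀ α β, α + β < m →
      scl (s e) (f e α β) = C (Polynomial.X ^ w e α β) * (Cm (x e) ^ α * Cm (y e) ^ β * W e α β)) :
    scK (z ^ s e) (gP m f w r z cc e) =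
      C r * ∑ t ∈ Finset.range m, ∑ n ∈ Finset.range (t + 1),
        C ((cc e n (t - n)).eval z) * (x e ^ n * y e ^ (t - n) * ev z (W e n (t - n))) := by
  unfold gP
  rw [map_sum, Finset.mul_sum]
  refine Finset.sum_congr rfl fun t ht => ?_
  rw [map_sum, Finset.mul_sum]
  refine Finset.sum_congr rfl fun n hn => ?_
  have ht' := Finset.mem_range.1 ht
  have hn' := Finset.mem_range.1 hn
  have hs := congrArg (ev z) (hscl n (t - n) (by omega))
  rw [ev_scl, map_mul, map_mul, map_mul, map_pow (ev z), map_pow (ev z), ev_Cm, ev_Cm, ev_C,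
    Polynomial.eval_pow, Polynomial.eval_X] at hs
  have h2 : z ^ w e n (t - n) ≠ 0 := pow_ne_zero _ hz
  have h3 : r * (cc e n (t - n)).eval z * (z ^ w e n (t - n))⁻¹ * z ^ w e n (t - n) =
      r * (cc e n (t - n)).eval z := by
    field_simp
  have h4 : (C (r * (cc e n (t - n)).eval z * (z ^ w e n (t - n))⁻¹) * C (z ^ w e n (t - n)) :
      MvPolynomial (Fin 2) K) = C r * C ((cc e n (t - n)).eval z) := by
    rw [← C_mul, ← C_mul, h3]
  rw [map_mul, scK_C, hs]
  linear_combination (x e ^ n * y e ^ (t - n) * ev z (W e n (t - n))) * h4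

end Spl3
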