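import Pool.Agent.Spl3.StepC

/-!
# Project Spl3 (S-lemma, MP_92924b), module StepD: the rows after the step
-/

namespace Spl3

open MvPolynomial

variable {K : Type*} [Field K] {E : Type*} [Fintype E] {m q : ℕ} {lam μ kap : ℕ → K}
  {i j k l a b : E → ℕ} {c : ℕ} {s : E → ℕ} {x y : E → MvPolynomial (Fin 2) K}
  {f W : E → ℕ → ℕ → MvPolynomial (Fin 2) (Polynomial K)} {w : E → ℕ → ℕ → ℕ}
  {A B : MvPolynomial (Fin 2) (Polynomial K)}
  {h : ℕ → MvPolynomial (Fin 2) (Polynomial K)} {cc : E → ℕ → ℕ → Polynomial K}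

/-- The function `h` at `ε = z`, multiplied by `r`. -/
noncomputable def hZ (μ : ℕ → K) (c : ℕ) (A B g : MvPolynomial (Fin 2) K)
    (h : ℕ → MvPolynomial (Fin 2) K) (zq : K) (v : ℕ) : MvPolynomial (Fin 2) K :=
  if v ≤ c then A + C (μ v) * B else if v = c + 1 then A + C (μ v) * B + C zq * g else h v

/-- Rows of class `> c + 1`. -/
theorem later_row {r ρz z : K} (hrρ : r * ρz = 1) {e : E} (hk : ¬ k e = c + 1)
    (hwlt : ∀ e, k e = c + 1 → ∀ α β, α + β < m → w e α β < q) (hz : z ≠ 0)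
    (t : MvPolynomial (Fin 2) K)
    (hx : ev z (row m q μ kap i j k l c s x y f W w A B h cc e) - C ρz * t ∈
      (nodeI lam (Function.update kap (c + 1) z) (a e) (b e)) ^ m) :
    cdet μ (fun v => Function.update kap (c + 1) z v ^ q) (i e) (j e) (k e) (l e)
      (hZ μ c (C r * ev z A) (C r * ev z B) (gA m k c f w r z cc) (fun v => C r * ev z (h v))
        (z ^ q)) - t ∈ (nodeI lam (Function.update kap (c + 1) z) (a e) (b e)) ^ m := by
  have h1 : hZ μ c (C r * ev z A) (C r * ev z B) (gA m k c f w r z cc)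
      (fun v => C r * ev z (h v)) (z ^ q) =
        fun v => C r * ev z (hE m q μ k c f w A B h cc v) := by
    funext v
    rw [ev_hE, hZ]
    split_ifs
    · ring
    · rw [← Gq_eq hz cc hwlt]; ring
    · rfl
  rw [ev_row_of_ne z hk] at hx
  have h2 := Ideal.mul_mem_left _ (C r) hx
  have h3 : (C r * C ρz : MvPolynomial (Fin 2) K) = 1 := by rw [← C_mul, hrρ, C_1]
  rw [h1, cdet_mul]
  rw [mul_sub, ← mul_assoc, h3, one_mul] at h2
  exact h2

omit [Fintype E] in
theorem Cl_ev (r z : K) (e : E) : C r * ev z (Cl q μ kap l A B h e) = C ((kap (l e) ^ q)⁻¹) *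
    (C r * ev z (h (l e)) - C r * ev z A - C (μ (l e)) * (C r * ev z B)) := by
  unfold Cl
  rw [map_mul, ev_C, Polynomial.eval_C, map_sub, map_sub, map_mul, ev_C, Polynomial.eval_C]
  ring

/-- Algebra for the rows of class `c + 1`. -/
theorem class_alg {R : Type*} [CommRing R] {u η ηi ui g go H t : R} (hη : η * ηi = 1)
    (hu : u * η * ui = 1) :
    u * (η * g - H) - t = u * η * ((go - ηi * H - ui * t) + (g - go)) := by
  linear_combination (u * H) * hη + t * hu

omit [Fintype E] in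
/-- Rows of class `c + 1`: the determinant. -/
theorem class_det (hq : 0 < q) (hkap : ∀ v ≤ c + 1, kap v = 0) {e : E} (hk : k e = c + 1)
    (hij : i e < j e) (hjk : j e < k e) (hkl : k e < l e) (z : K)
    (A B g : MvPolynomial (Fin 2) K) (h : ℕ → MvPolynomial (Fin 2) K) :
    cdet μ (fun v => Function.update kap (c + 1) z v ^ q) (i e) (j e) (k e) (l e)
      (hZ μ c A B g h (z ^ q)) =
        C ((μ (j e) - μ (i e)) * z ^ q) * (C (kap (l e) ^ q) * g -
          (h (l e) - A - C (μ (l e)) * B)) := by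
  have hup : ∀ v, v ≠ c + 1 → Function.update kap (c + 1) z v = kap v := fun v hv =>
    Function.update_of_ne hv _ _
  have hdet := cdet_near μ (fun v => Function.update kap (c + 1) z v ^ q) (i := i e) (j := j e)
    (k := k e) (l := l e) (by rw [hup _ (by omega), hkap _ (by omega), zero_pow hq.ne'])
    (by rw [hup _ (by omega), hkap _ (by omega), zero_pow hq.ne'])
    (hZ μ c A B g h (z ^ q)) A B g
    (by rw [hZ, if_pos (by omega)]) (by rw [hZ, if_pos (by omega)])
    (by rw [hZ, if_neg (by omega), if_pos hk, hk, Function.update_self])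
  have h2 : hZ μ c A B g h (z ^ q) (l e) = h (l e) := by
    rw [hZ, if_neg (by omega), if_neg (by omega)]
  have h3 : Function.update kap (c + 1) z (k e) = z := by rw [hk, Function.update_self]
  rw [hdet, h2, h3, hup _ (by omega)]

/-- Rows of class `c + 1`. -/
theorem class_row {r ρz z : K} (hrρ : r * ρz = 1) (hz : z ≠ 0) (hq : 0 < q)
    (hμ : Function.Injective μ) (hkap : ∀ v ≤ c + 1, kap v = 0) {e : E} (hk : k e = c + 1)
    (hij : i e < j e) (hjk : j e < k e) (hkl : k e < l e) (hl : kap (l e) ≠ 0)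
    (hdat : ∀ e, k e = c + 1 → NodeD m q lam kap a b (c + 1) {e | k e = c + 1} e (s e) (x e) (y e)
      (f e) (W e) (w e))
    (t : MvPolynomial (Fin 2) K)
    (hx : ev z (row m q μ kap i j k l c s x y f W w A B h cc e) - C ρz *
      scK (z ^ s e) (C (((μ (j e) - μ (i e)) * z ^ q * kap (l e) ^ q)⁻¹) * t) ∈
        (Ideal.span {x e, y e}) ^ m) :
    cdet μ (fun v => Function.update kap (c + 1) z v ^ q) (i e) (j e) (k e) (l e)
      (hZ μ c (C r * ev z A) (C r * ev z B) (gA m k c f w r z cc) (fun v => C r * ev z (h v))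
        (z ^ q)) - t ∈ (nodeI lam (Function.update kap (c + 1) z) (a e) (b e)) ^ m := by
  have hd := hdat e hk
  have hun0 : (μ (j e) - μ (i e)) * z ^ q ≠ 0 := mul_ne_zero
    (sub_ne_zero.2 fun h => hij.ne' (hμ h)) (pow_ne_zero _ hz)
  have h3 : (C r * C ρz : MvPolynomial (Fin 2) K) = 1 := by rw [← C_mul, hrρ, C_1]
  rw [ev_row_of_eq z hk] at hx
  have h2 := Ideal.mul_mem_left _ (C r) hx
  rw [mul_sub, mul_sub, ← scK_gP hz cc hd.scl, ← mul_assoc (C r) (C ρz), h3, one_mul,
    ← scK_C (z ^ s e) r, ← map_mul, ← map_sub, ← map_sub] at h2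
  have hkey := hd.unscale z hz _ h2
  have hgo := gA_sub (r := r) (z := z) (f := f) (w := w) (m := m) cc hk
    (I := (nodeI lam (Function.update kap (c + 1) z) (a e) (b e)) ^ m)
    fun e' hk' hne α β hαβ => (hdat e' hk').cross z hz α β hαβ e hk hne
  have hsum := Ideal.mul_mem_left _ (C ((μ (j e) - μ (i e)) * z ^ q) * C (kap (l e) ^ q))
    (Ideal.add_mem _ hkey hgo)
  rw [class_det hq hkap hk hij hjk hkl]
  have hη : (C (kap (l e) ^ q) * C ((kap (l e) ^ q)⁻¹) : MvPolynomial (Fin 2) K) = 1 := by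
    rw [← C_mul, mul_inv_cancel₀ (pow_ne_zero _ hl), C_1]
  have hu : (C ((μ (j e) - μ (i e)) * z ^ q) * C (kap (l e) ^ q) *
      C (((μ (j e) - μ (i e)) * z ^ q * kap (l e) ^ q)⁻¹) : MvPolynomial (Fin 2) K) = 1 := by
    rw [← C_mul, ← C_mul, mul_inv_cancel₀ (mul_ne_zero hun0 (pow_ne_zero _ hl)), C_1]
  rw [Cl_ev] at hsum
  rw [class_alg (go := gP m f w r z cc e) hη hu]
  exact hsum

end Spl3
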