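import Pool.Agent.Spl3.StepD

/-!
# Project Spl3 (S-lemma, MP_92924b), module StepM: the induction step
-/

namespace Spl3

open MvPolynomial

variable {K : Type*} [Field K] {E : Type*} [Fintype E] {m q : ℕ} {lam μ kap : ℕ → K}
  {i j k l a b : E → ℕ} {c : ℕ}

/-- The rows are onto generically. -/
theorem step_spec (hlam : Function.Injective lam)
    (hkap : ∀ v ≤ c + 1, kap v = 0) (hab : ∀ e, a e ≠ b e)
    (H : Onto m q lam μ kap i j k l a b (c + 1)) {s : E → ℕ} {x y : E → MvPolynomial (Fin 2) K}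
    {f W : E → ℕ → ℕ → MvPolynomial (Fin 2) (Polynomial K)} {w : E → ℕ → ℕ → ℕ}
    (hdat : ∀ e, k e = c + 1 → NodeD m q lam kap a b (c + 1) {e | k e = c + 1} e (s e) (x e) (y e)
      (f e) (W e) (w e)) :
    ∃ r : Polynomial K, r.eval 0 = 1 ∧
      ∀ T : {e : E // c < k e} → MvPolynomial (Fin 2) (Polynomial K),
        ∃ T' ∈ Att m q μ kap i j k l c s x y f W w, ∀ e, T' e -
          algebraMap (Polynomial K) (MvPolynomial (Fin 2) (Polynomial K)) r * T e ∈
            rowI m lam kap k a b c x y e.1 :=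
  spec_sub (Att m q μ kap i j k l c s x y f W w)
    (fun e => rowI m lam kap k a b c x y e.1)
    (fun e => fin_rowI hlam hab (fun e he => (hdat e he).const) e.1) (residue hkap hdat H)

/-- The induction step: the vertex `c + 1` gets a height. -/
theorem step [Infinite K] (hlam : Function.Injective lam) (hμ : Function.Injective μ) (hq : 0 < q)
    (hkap : ∀ v ≤ c + 1, kap v = 0)
    (hQ : ∀ e, i e < j e ∧ j e < k e ∧ k e < l e) (hab : ∀ e, a e ≠ b e)
    (hl : ∀ e, k e = c + 1 → kap (l e) ≠ 0)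
    (hloc : ∀ e, k e = c + 1 → NodeOK m q lam kap a b (c + 1) {e | k e = c + 1} e)
    (H : Onto m q lam μ kap i j k l a b (c + 1)) :
    ∃ z : K, z ≠ 0 ∧ Onto m q lam μ (Function.update kap (c + 1) z) i j k l a b c := by
  classical
  have hdat : ∀ e, ∃ (s : ℕ) (x y : MvPolynomial (Fin 2) K)
      (f W : ℕ → ℕ → MvPolynomial (Fin 2) (Polynomial K)) (w : ℕ → ℕ → ℕ),
      k e = c + 1 → NodeD m q lam kap a b (c + 1) {e | k e = c + 1} e s x y f W w := by
    intro e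
    by_cases hk : k e = c + 1
    · obtain ⟨s, x, y, f, W, w, hd⟩ := hloc e hk
      exact ⟨s, x, y, f, W, w, fun _ => hd⟩
    · exact ⟨0, 0, 0, fun _ _ => 0, fun _ _ => 0, fun _ _ => 0, fun h => absurd h hk⟩
  choose s x y f W w hdat using hdat
  obtain ⟨ρ, hρ0, hρ⟩ := step_spec hlam hkap hab H hdat
  -- the choice of the height
  have hne : ρ * Polynomial.X ≠ 0 := by
    refine mul_ne_zero ?_ Polynomial.X_ne_zero
    rintro rfl
    simp at hρ0
  obtain ⟨z, hz⟩ : ∃ z : K, (ρ * Polynomial.X).eval z ≠ 0 := by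
    by_contra hcon
    push Not at hcon
    exact hne (Polynomial.funext fun z => by rw [hcon z, Polynomial.eval_zero])
  rw [Polynomial.eval_mul, Polynomial.eval_X] at hz
  have hz0 : z ≠ 0 := right_ne_zero_of_mul hz
  have hρz : ρ.eval z ≠ 0 := left_ne_zero_of_mul hz
  refine ⟨z, hz0, fun t => ?_⟩
  obtain ⟨T', ⟨A, B, h, cc, hA, hB, hh, hT'⟩, hx⟩ := hρ fun e =>
    if k e.1 = c + 1 then
      Cm (scK (z ^ s e.1) (C (((μ (j e.1) - μ (i e.1)) * z ^ q * kap (l e.1) ^ q)⁻¹) * t e.1))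
    else Cm (t e.1)
  have hrρ : (ρ.eval z)⁻¹ * ρ.eval z = 1 := inv_mul_cancel₀ hρz
  have hCev : ∀ P : MvPolynomial (Fin 2) (Polynomial K), P.totalDegree ≤ 2 * m →
      (C (ρ.eval z)⁻¹ * ev z P).totalDegree ≤ 2 * m := fun P hP =>
    (totalDegree_C_mul_le _ _).trans ((totalDegree_ev_le _ _).trans hP)
  have hgdeg : (gA m k c f w (ρ.eval z)⁻¹ z cc).totalDegree ≤ 2 * m :=
    gA_deg cc fun e he => (hdat e he).deg
  have key : ∀ e, c < k e → cdet μ (fun v => Function.update kap (c + 1) z v ^ q)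
      (i e) (j e) (k e) (l e)
      (hZ μ c (C (ρ.eval z)⁻¹ * ev z A) (C (ρ.eval z)⁻¹ * ev z B)
        (gA m k c f w (ρ.eval z)⁻¹ z cc) (fun v => C (ρ.eval z)⁻¹ * ev z (h v))
        (z ^ q)) - t e ∈ (nodeI lam (Function.update kap (c + 1) z) (a e) (b e)) ^ m := by
    intro e hce
    have hxe := hx ⟨e, hce⟩
    rw [hT' ⟨e, hce⟩] at hxe
    have hev := Ideal.mem_map_of_mem (ev z) hxe
    by_cases hk : k e = c + 1
    · rw [map_rowI_of_eq z hk, map_sub, map_mul, MvPolynomial.algebraMap_eq, ev_C, if_pos hk,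
        ev_Cm] at hev
      exact class_row hrρ hz0 hq hμ hkap hk (hQ e).1 (hQ e).2.1 (hQ e).2.2 (hl e hk) hdat _ hev
    · rw [map_rowI_of_ne z hk, map_sub, map_mul, MvPolynomial.algebraMap_eq, ev_C, if_neg hk,
        ev_Cm] at hev
      exact later_row hrρ hk (fun e he => (hdat e he).wlt) hz0 _ hev
  refine ⟨C (ρ.eval z)⁻¹ * ev z A, C (ρ.eval z)⁻¹ * ev z B,
    hZ μ c (C (ρ.eval z)⁻¹ * ev z A) (C (ρ.eval z)⁻¹ * ev z B)
        (gA m k c f w (ρ.eval z)⁻¹ z cc) (fun v => C (ρ.eval z)⁻¹ * ev z (h v))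
        (z ^ q), hCev A hA, hCev B hB, fun v => ?_, fun e hce => ?_⟩
  · have h1 : (C (ρ.eval z)⁻¹ * ev z A + C (μ v) * (C (ρ.eval z)⁻¹ * ev z B)).totalDegree ≤
        2 * m := (totalDegree_add _ _).trans
          (max_le (hCev A hA) ((totalDegree_C_mul_le _ _).trans (hCev B hB)))
    unfold hZ
    split_ifs
    · exact h1
    · exact (totalDegree_add _ _).trans (max_le h1 ((totalDegree_C_mul_le _ _).trans hgdeg))
    · exact hCev _ (hh v)
  · have h2 := key e hce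
    have h3 : hZ μ c (C (ρ.eval z)⁻¹ * ev z A) (C (ρ.eval z)⁻¹ * ev z B)
        (gA m k c f w (ρ.eval z)⁻¹ z cc) (fun v => C (ρ.eval z)⁻¹ * ev z (h v)) (z ^ q) =
        fun v => if v ≤ c then C (ρ.eval z)⁻¹ * ev z A + C (μ v) * (C (ρ.eval z)⁻¹ * ev z B) else
          hZ μ c (C (ρ.eval z)⁻¹ * ev z A) (C (ρ.eval z)⁻¹ * ev z B)
            (gA m k c f w (ρ.eval z)⁻¹ z cc) (fun v => C (ρ.eval z)⁻¹ * ev z (h v)) (z ^ q) v := by
      funext v
      by_cases hv : v ≤ c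
      · rw [if_pos hv, hZ, if_pos hv]
      · rw [if_neg hv]
    rw [← h3]
    exact h2

end Spl3
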